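import Pool.Agent.Helper880_ZP.Fn

/-!
# The action of block matrices on mixed tensors, and the Lie algebra of a tensor
-/

set_option autoImplicit false
set_option linter.unusedSectionVars false
set_option linter.unusedVariables false

open Matrix Module

namespace Pool.Agent.Helper880_HC

open Pool.Agent.Helper880_R3 (Ix Tot Tot_mul Tot_inj ib ib_apply ib_mul)
open Pool.Agent.Helper880_ZP (Lie' DefOver K₀ mem_K₀)

variable {n N r₀ d₀ d : ℕ}

/-- mixed tensors -/
abbrev Ten (K : Type) (d₀ d r₀ n : ℕ) : Type := (Fin d₀ → Fin r₀) → (Fin d → Fin n) → K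

section act
variable {K : Type} [Field K]

/-- the action on one factor of the constant part -/
def a0 (k : Fin d₀) (x : Matrix (Fin r₀) (Fin r₀) K) : Module.End K (Ten K d₀ d r₀ n) where
  toFun := fun f u v => ∑ a, x (u k) a * f (Function.update u k a) v
  map_add' := fun f g => by
    funext u v
    simp only [Pi.add_apply]
    rw [← Finset.sum_add_distrib]
    exact Finset.sum_congr rfl fun a _ => mul_add _ _ _
  map_smul' := fun c f => by
    funext u v
    simp only [Pi.smul_apply, RingHom.id_apply, smul_eq_mul]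
    rw [Finset.mul_sum]
    exact Finset.sum_congr rfl fun a _ => by ring

/-- the action on one factor of the variable part -/
def a1 (l : Fin d) (X : Matrix (Fin n) (Fin n) K) : Module.End K (Ten K d₀ d r₀ n) where
  toFun := fun f u v => ∑ a, X (v l) a * f u (Function.update v l a)
  map_add' := fun f g => by
    funext u v
    simp only [Pi.add_apply]
    rw [← Finset.sum_add_distrib]
    exact Finset.sum_congr rfl fun a _ => mul_add _ _ _
  map_smul' := fun c f => by
    funext u v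
    simp only [Pi.smul_apply, RingHom.id_apply, smul_eq_mul]
    rw [Finset.mul_sum]
    exact Finset.sum_congr rfl fun a _ => by ring

theorem a0_apply (k : Fin d₀) (x : Matrix (Fin r₀) (Fin r₀) K) (f : Ten K d₀ d r₀ n) (u : Fin d₀ → Fin r₀)
    (v : Fin d → Fin n) : a0 k x f u v = ∑ a, x (u k) a * f (Function.update u k a) v := rfl

theorem a1_apply (l : Fin d) (X : Matrix (Fin n) (Fin n) K) (f : Ten K d₀ d r₀ n) (u : Fin d₀ → Fin r₀)
    (v : Fin d → Fin n) : a1 l X f u v = ∑ a, X (v l) a * f u (Function.update v l a) := rfl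

theorem a0_mul (k : Fin d₀) (x y : Matrix (Fin r₀) (Fin r₀) K) :
    a0 k x * a0 k y = (a0 k (x * y) : Module.End K (Ten K d₀ d r₀ n)) := by
  refine LinearMap.ext fun f => ?_
  funext u v
  rw [Module.End.mul_apply, a0_apply, a0_apply]
  simp only [a0_apply, Function.update_self, Function.update_idem, Matrix.mul_apply, Finset.mul_sum, Finset.sum_mul]
  rw [Finset.sum_comm]
  exact Finset.sum_congr rfl fun _ _ => Finset.sum_congr rfl fun _ _ => by ring

theorem a1_mul (l : Fin d) (X Y : Matrix (Fin n) (Fin n) K) :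
    a1 l X * a1 l Y = (a1 l (X * Y) : Module.End K (Ten K d₀ d r₀ n)) := by
  refine LinearMap.ext fun f => ?_
  funext u v
  rw [Module.End.mul_apply, a1_apply, a1_apply]
  simp only [a1_apply, Function.update_self, Function.update_idem, Matrix.mul_apply, Finset.mul_sum, Finset.sum_mul]
  rw [Finset.sum_comm]
  exact Finset.sum_congr rfl fun _ _ => Finset.sum_congr rfl fun _ _ => by ring

theorem a0_comm {k k' : Fin d₀} (h : k ≠ k') (x y : Matrix (Fin r₀) (Fin r₀) K) :
    a0 k x * a0 k' y = (a0 k' y * a0 k x : Module.End K (Ten K d₀ d r₀ n)) := by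
  refine LinearMap.ext fun f => ?_
  funext u v
  rw [Module.End.mul_apply, Module.End.mul_apply, a0_apply, a0_apply]
  simp only [a0_apply, Function.update_of_ne h, Function.update_of_ne h.symm, Finset.mul_sum]
  rw [Finset.sum_comm]
  refine Finset.sum_congr rfl fun _ _ => Finset.sum_congr rfl fun _ _ => ?_
  rw [Function.update_comm h]
  ring

theorem a1_comm {l l' : Fin d} (h : l ≠ l') (X Y : Matrix (Fin n) (Fin n) K) :
    a1 l X * a1 l' Y = (a1 l' Y * a1 l X : Module.End K (Ten K d₀ d r₀ n)) := by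
  refine LinearMap.ext fun f => ?_
  funext u v
  rw [Module.End.mul_apply, Module.End.mul_apply, a1_apply, a1_apply]
  simp only [a1_apply, Function.update_of_ne h, Function.update_of_ne h.symm, Finset.mul_sum]
  rw [Finset.sum_comm]
  refine Finset.sum_congr rfl fun _ _ => Finset.sum_congr rfl fun _ _ => ?_
  rw [Function.update_comm h]
  ring

theorem a01_comm (k : Fin d₀) (l : Fin d) (x : Matrix (Fin r₀) (Fin r₀) K) (X : Matrix (Fin n) (Fin n) K) :
    a0 k x * a1 l X = (a1 l X * a0 k x : Module.End K (Ten K d₀ d r₀ n)) := by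
  refine LinearMap.ext fun f => ?_
  funext u v
  rw [Module.End.mul_apply, Module.End.mul_apply, a0_apply, a1_apply]
  simp only [a0_apply, a1_apply, Finset.mul_sum]
  rw [Finset.sum_comm]
  refine Finset.sum_congr rfl fun _ _ => Finset.sum_congr rfl fun _ _ => ?_
  ring

theorem a0_add (k : Fin d₀) (x y : Matrix (Fin r₀) (Fin r₀) K) :
    a0 k (x + y) = (a0 k x + a0 k y : Module.End K (Ten K d₀ d r₀ n)) := by
  refine LinearMap.ext fun f => ?_
  funext u v
  simp only [LinearMap.add_apply, Pi.add_apply, a0_apply, Matrix.add_apply, add_mul, Finset.sum_add_distrib]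

theorem a1_add (l : Fin d) (X Y : Matrix (Fin n) (Fin n) K) :
    a1 l (X + Y) = (a1 l X + a1 l Y : Module.End K (Ten K d₀ d r₀ n)) := by
  refine LinearMap.ext fun f => ?_
  funext u v
  simp only [LinearMap.add_apply, Pi.add_apply, a1_apply, Matrix.add_apply, add_mul, Finset.sum_add_distrib]

theorem a0_smul (k : Fin d₀) (c : K) (x : Matrix (Fin r₀) (Fin r₀) K) :
    a0 k (c • x) = (c • a0 k x : Module.End K (Ten K d₀ d r₀ n)) := by
  refine LinearMap.ext fun f => ?_
  funext u v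
  simp only [LinearMap.smul_apply, Pi.smul_apply, a0_apply, Matrix.smul_apply, smul_eq_mul, Finset.mul_sum, mul_assoc]

theorem a1_smul (l : Fin d) (c : K) (X : Matrix (Fin n) (Fin n) K) :
    a1 l (c • X) = (c • a1 l X : Module.End K (Ten K d₀ d r₀ n)) := by
  refine LinearMap.ext fun f => ?_
  funext u v
  simp only [LinearMap.smul_apply, Pi.smul_apply, a1_apply, Matrix.smul_apply, smul_eq_mul, Finset.mul_sum, mul_assoc]

theorem a0_zero (k : Fin d₀) : a0 k (0 : Matrix (Fin r₀) (Fin r₀) K) = (0 : Module.End K (Ten K d₀ d r₀ n)) := by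
  have := a0_smul (d := d) (n := n) k (0 : K) (0 : Matrix (Fin r₀) (Fin r₀) K)
  rwa [zero_smul, zero_smul] at this

theorem a1_zero (l : Fin d) : a1 l (0 : Matrix (Fin n) (Fin n) K) = (0 : Module.End K (Ten K d₀ d r₀ n)) := by
  have := a1_smul (d₀ := d₀) (r₀ := r₀) l (0 : K) (0 : Matrix (Fin n) (Fin n) K)
  rwa [zero_smul, zero_smul] at this

theorem a0_one (k : Fin d₀) : a0 k (1 : Matrix (Fin r₀) (Fin r₀) K) = (1 : Module.End K (Ten K d₀ d r₀ n)) := by
  refine LinearMap.ext fun f => ?_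
  funext u v
  rw [a0_apply, Finset.sum_eq_single (u k)]
  · rw [Matrix.one_apply_eq, one_mul, Function.update_eq_self]
    rfl
  · intro b _ hb
    rw [Matrix.one_apply_ne hb.symm, zero_mul]
  · intro h
    exact absurd (Finset.mem_univ _) h

theorem a1_one (l : Fin d) : a1 l (1 : Matrix (Fin n) (Fin n) K) = (1 : Module.End K (Ten K d₀ d r₀ n)) := by
  refine LinearMap.ext fun f => ?_
  funext u v
  rw [a1_apply, Finset.sum_eq_single (v l)]
  · rw [Matrix.one_apply_eq, one_mul, Function.update_eq_self]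
    rfl
  · intro b _ hb
    rw [Matrix.one_apply_ne hb.symm, zero_mul]
  · intro h
    exact absurd (Finset.mem_univ _) h

/-- the action of a block matrix -/
def act (τ : Fin d → Fin N) (x : Matrix (Fin r₀) (Fin r₀) K) (X : Fin N → Matrix (Fin n) (Fin n) K) :
    Module.End K (Ten K d₀ d r₀ n) := ∑ k, a0 k x + ∑ l, a1 l (X (τ l))

theorem act_apply (τ : Fin d → Fin N) (x : Matrix (Fin r₀) (Fin r₀) K) (X : Fin N → Matrix (Fin n) (Fin n) K)
    (f : Ten K d₀ d r₀ n) (u : Fin d₀ → Fin r₀) (v : Fin d → Fin n) :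
    act τ x X f u v = (∑ k, ∑ a, x (u k) a * f (Function.update u k a) v) +
      ∑ l, ∑ a, X (τ l) (v l) a * f u (Function.update v l a) := by
  unfold act
  rw [LinearMap.add_apply, LinearMap.sum_apply, LinearMap.sum_apply, Pi.add_apply, Pi.add_apply, Finset.sum_apply,
    Finset.sum_apply, Finset.sum_apply, Finset.sum_apply]
  rfl

theorem act_add (τ : Fin d → Fin N) (x y : Matrix (Fin r₀) (Fin r₀) K) (X Y : Fin N → Matrix (Fin n) (Fin n) K) :
    act τ (x + y) (X + Y) = (act τ x X + act τ y Y : Module.End K (Ten K d₀ d r₀ n)) := by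
  unfold act
  simp only [a0_add, Pi.add_apply, a1_add, Finset.sum_add_distrib]
  abel

theorem act_smul (τ : Fin d → Fin N) (c : K) (x : Matrix (Fin r₀) (Fin r₀) K) (X : Fin N → Matrix (Fin n) (Fin n) K) :
    act τ (c • x) (c • X) = (c • act τ x X : Module.End K (Ten K d₀ d r₀ n)) := by
  unfold act
  simp only [a0_smul, Pi.smul_apply, a1_smul, ← Finset.smul_sum, smul_add]

theorem act_zero (τ : Fin d → Fin N) :
    act τ (0 : Matrix (Fin r₀) (Fin r₀) K) (0 : Fin N → Matrix (Fin n) (Fin n) K) =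
      (0 : Module.End K (Ten K d₀ d r₀ n)) := by
  unfold act
  simp only [a0_zero, Pi.zero_apply, a1_zero, Finset.sum_const_zero, add_zero]

theorem comm_add' {A : Type} [Ring A] (a b c e : A) :
    (a + b) * (c + e) - (c + e) * (a + b) = (a * c - c * a) + (b * e - e * b) + ((a * e - e * a) + (b * c - c * b)) := by
  noncomm_ring

theorem sum_comm' {A : Type} [Ring A] {m : ℕ} (f g : Fin m → A) (h : ∀ i j, i ≠ j → f i * g j = g j * f i) :
    (∑ i, f i) * (∑ i, g i) - (∑ i, g i) * (∑ i, f i) = ∑ i, (f i * g i - g i * f i) := by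
  rw [Finset.sum_mul_sum, Finset.sum_mul_sum]
  have h1 : ∑ i, ∑ j, g i * f j = ∑ i, ∑ j, g j * f i := Finset.sum_comm
  rw [h1, ← Finset.sum_sub_distrib]
  refine Finset.sum_congr rfl fun l _ => ?_
  rw [← Finset.sum_sub_distrib, Finset.sum_eq_single l]
  · intro b _ hb
    rw [h l b hb.symm, sub_self]
  · intro h
    exact absurd (Finset.mem_univ _) h

theorem sum_comm0 {A : Type} [Ring A] {m m' : ℕ} (f : Fin m → A) (g : Fin m' → A) (h : ∀ i j, f i * g j = g j * f i) :
    (∑ i, f i) * (∑ i, g i) - (∑ i, g i) * (∑ i, f i) = 0 := by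
  rw [Finset.sum_mul_sum, Finset.sum_mul_sum, Finset.sum_comm, sub_eq_zero]
  exact Finset.sum_congr rfl fun i _ => Finset.sum_congr rfl fun j _ => h j i

/-- **the action is an action of Lie algebras** -/
theorem act_br (τ : Fin d → Fin N) (x y : Matrix (Fin r₀) (Fin r₀) K) (X Y : Fin N → Matrix (Fin n) (Fin n) K) :
    act τ x X * act τ y Y - act τ y Y * act τ x X =
      (act τ (x * y - y * x) (fun j => X j * Y j - Y j * X j) : Module.End K (Ten K d₀ d r₀ n)) := by
  have hs0 : ∀ (k : Fin d₀) (a b : Matrix (Fin r₀) (Fin r₀) K), a0 k (a - b) =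
      (a0 k a - a0 k b : Module.End K (Ten K d₀ d r₀ n)) := by
    intro k a b
    rw [sub_eq_add_neg, a0_add, sub_eq_add_neg, ← neg_one_smul K b, a0_smul, neg_one_smul K (a0 k b)]
  have hs1 : ∀ (k : Fin d) (a b : Matrix (Fin n) (Fin n) K), a1 k (a - b) =
      (a1 k a - a1 k b : Module.End K (Ten K d₀ d r₀ n)) := by
    intro k a b
    rw [sub_eq_add_neg, a1_add, sub_eq_add_neg, ← neg_one_smul K b, a1_smul, neg_one_smul K (a1 k b)]
  unfold act
  rw [comm_add', sum_comm' _ _ fun i j h => a0_comm h _ _, sum_comm' _ _ fun i j h => a1_comm h _ _,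
    sum_comm0 _ _ fun i j => a01_comm _ _ _ _, sum_comm0 _ _ fun i j => (a01_comm _ _ _ _).symm, add_zero, add_zero]
  congr 1
  · exact Finset.sum_congr rfl fun k _ => by rw [a0_mul, a0_mul, hs0]
  · exact Finset.sum_congr rfl fun k _ => by rw [a1_mul, a1_mul, hs1]

end act

/-- rational tensors as complex tensors -/
def tC (f : Ten ℚ d₀ d r₀ n) : Ten ℂ d₀ d r₀ n := fun u v => (f u v : ℂ)

/-- the Lie algebra of a tensor: the block matrices which multiply it by a scalar -/
def hf (τ : Fin d → Fin N) (f : Ten ℂ d₀ d r₀ n) : Submodule ℂ (Matrix (Ix r₀ n N) (Ix r₀ n N) ℂ) where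
  carrier := {Y | ∃ (x : Matrix (Fin r₀) (Fin r₀) ℂ) (X : Fin N → Matrix (Fin n) (Fin n) ℂ) (c : ℂ), Y = Tot x X ∧
    act τ x X f = c • f}
  zero_mem' := ⟨0, 0, 0, by
    unfold Tot
    rw [Matrix.blockDiagonal_zero, Matrix.fromBlocks_zero], by
    rw [act_zero, LinearMap.zero_apply, zero_smul]⟩
  add_mem' := by
    rintro _ _ ⟨x, X, c, rfl, hc⟩ ⟨y, Y, c', rfl, hc'⟩
    refine ⟨x + y, X + Y, c + c', ?_, ?_⟩
    · unfold Tot
      rw [Matrix.fromBlocks_add, ← Matrix.blockDiagonal_add]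
      simp only [add_zero]
    · rw [act_add, LinearMap.add_apply, hc, hc', add_smul]
  smul_mem' := by
    rintro a _ ⟨x, X, c, rfl, hc⟩
    refine ⟨a • x, a • X, a * c, ?_, ?_⟩
    · unfold Tot
      rw [Matrix.fromBlocks_smul, ← Matrix.blockDiagonal_smul]
      simp only [smul_zero]
    · rw [act_smul, LinearMap.smul_apply, hc, smul_smul]

theorem Tot_sub (x y : Matrix (Fin r₀) (Fin r₀) ℂ) (X Y : Fin N → Matrix (Fin n) (Fin n) ℂ) :
    Tot x X - Tot y Y = Tot (x - y) fun j => X j - Y j := by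
  unfold Tot
  rw [sub_eq_add_neg, Matrix.fromBlocks_neg, Matrix.fromBlocks_add]
  simp only [neg_zero, add_zero]
  rw [← sub_eq_add_neg, ← sub_eq_add_neg, ← Matrix.blockDiagonal_sub]
  rfl

theorem hf_lie (τ : Fin d → Fin N) (f : Ten ℂ d₀ d r₀ n) : Lie' (hf τ f) := by
  rintro _ ⟨x, X, c, rfl, hc⟩ _ ⟨y, Y, c', rfl, hc'⟩
  refine ⟨x * y - y * x, fun j => X j * Y j - Y j * X j, 0, ?_, ?_⟩
  · rw [Tot_mul, Tot_mul, Tot_sub]
  · rw [← act_br, LinearMap.sub_apply, Module.End.mul_apply, Module.End.mul_apply, hc, hc', map_smul, map_smul, hc, hc',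
      smul_smul, smul_smul, mul_comm, sub_self, zero_smul]

/-- the rational matrix which is obtained by a linear form -/
noncomputable def mapQ {B B' : Type} (μ : ℂ →ₗ[ℚ] ℚ) (X : Matrix B B' ℂ) : Matrix B B' ℂ := X.map fun z => ((μ z : ℚ) : ℂ)

theorem mapQ_Tot (μ : ℂ →ₗ[ℚ] ℚ) (x : Matrix (Fin r₀) (Fin r₀) ℂ) (X : Fin N → Matrix (Fin n) (Fin n) ℂ) :
    mapQ μ (Tot x X) = Tot (mapQ μ x) fun j => mapQ μ (X j) := by
  ext (a | ⟨a, i⟩) (b | ⟨b, j⟩)
  · rfl
  · show ((μ 0 : ℚ) : ℂ) = 0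
    rw [map_zero, Rat.cast_zero]
  · show ((μ 0 : ℚ) : ℂ) = 0
    rw [map_zero, Rat.cast_zero]
  · show ((μ (Matrix.blockDiagonal X (a, i) (b, j)) : ℚ) : ℂ) = Matrix.blockDiagonal (fun j => mapQ μ (X j)) (a, i) (b, j)
    rw [Matrix.blockDiagonal_apply, Matrix.blockDiagonal_apply]
    split_ifs
    · rfl
    · rw [map_zero, Rat.cast_zero]

theorem mu_mul (μ : ℂ →ₗ[ℚ] ℚ) (z : ℂ) (q : ℚ) : μ (z * (q : ℂ)) = μ z * q := by
  have h : z * (q : ℂ) = q • z := by
    rw [mul_comm, Rat.smul_def]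
  rw [h, map_smul, smul_eq_mul, mul_comm]

theorem mapQ_act (μ : ℂ →ₗ[ℚ] ℚ) (τ : Fin d → Fin N) (x : Matrix (Fin r₀) (Fin r₀) ℂ)
    (X : Fin N → Matrix (Fin n) (Fin n) ℂ) (f : Ten ℚ d₀ d r₀ n) (u : Fin d₀ → Fin r₀) (v : Fin d → Fin n) :
    act τ (mapQ μ x) (fun j => mapQ μ (X j)) (tC f) u v = ((μ (act τ x X (tC f) u v) : ℚ) : ℂ) := by
  rw [act_apply, act_apply, map_add, map_sum, map_sum, Rat.cast_add, Rat.cast_sum, Rat.cast_sum]
  congr 1
  · refine Finset.sum_congr rfl fun k _ => ?_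
    rw [map_sum, Rat.cast_sum]
    refine Finset.sum_congr rfl fun a _ => ?_
    show ((μ (x (u k) a) : ℚ) : ℂ) * (f (Function.update u k a) v : ℂ) = ((μ (x (u k) a * (f (Function.update u k a) v : ℂ)) : ℚ) : ℂ)
    rw [mu_mul, Rat.cast_mul]
  · refine Finset.sum_congr rfl fun k _ => ?_
    rw [map_sum, Rat.cast_sum]
    refine Finset.sum_congr rfl fun a _ => ?_
    show ((μ (X (τ k) (v k) a) : ℚ) : ℂ) * (f u (Function.update v k a) : ℂ) =
      ((μ (X (τ k) (v k) a * (f u (Function.update v k a) : ℂ)) : ℚ) : ℂ)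
    rw [mu_mul, Rat.cast_mul]

/-- **the Lie algebra of a rational tensor is rational** -/
theorem hf_rat (τ : Fin d → Fin N) (f : Ten ℚ d₀ d r₀ n) : DefOver K₀ (hf τ (tC f)) := by
  classical
  refine le_antisymm ?_ (Submodule.span_le.2 fun X hX => hX.1)
  intro Y hY
  obtain ⟨x, X, c, hYe, hc⟩ := hY
  set b := Module.Basis.ofVectorSpace ℚ ℂ with hb
  have hmem : ∀ i, mapQ (b.coord i) Y ∈ Submodule.span ℂ {X | X ∈ hf τ (tC f) ∧ ∀ i j, X i j ∈ K₀} := by
    intro i
    refine Submodule.subset_span ⟨⟨mapQ (b.coord i) x, fun j => mapQ (b.coord i) (X j), ((b.coord i c : ℚ) : ℂ), ?_, ?_⟩,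
      fun a a' => mem_K₀.2 ⟨_, rfl⟩⟩
    · rw [hYe, mapQ_Tot]
    · funext u v
      rw [mapQ_act, hc]
      show (((b.coord i) (c * (f u v : ℂ)) : ℚ) : ℂ) = ((b.coord i c : ℚ) : ℂ) * (f u v : ℂ)
      rw [mu_mul, Rat.cast_mul]
  set s : Finset _ := Finset.univ.biUnion fun p : Ix r₀ n N × Ix r₀ n N => (b.repr (Y p.1 p.2)).support with hs
  have hsum : Y = ∑ i ∈ s, b i • mapQ (b.coord i) Y := by
    ext p q
    rw [Matrix.sum_apply]
    have h1 := b.linearCombination_repr (Y p q)
    have h2 : (b.repr (Y p q)).support ⊆ s := fun i hi => Finset.mem_biUnion.2 ⟨(p, q), Finset.mem_univ _, hi⟩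
    have h3 := Finsupp.sum_of_support_subset (b.repr (Y p q)) h2 (fun i a => a • b i) (fun i _ => zero_smul ℚ (b i))
    rw [Finsupp.linearCombination_apply, h3] at h1
    conv_lhs => rw [← h1]
    refine Finset.sum_congr rfl fun i _ => ?_
    show (b.repr (Y p q)) i • b i = b i * (((b.repr (Y p q)) i : ℚ) : ℂ)
    rw [Rat.smul_def, mul_comm]
  rw [hsum]
  exact Submodule.sum_mem _ fun i _ => Submodule.smul_mem _ _ (hmem i)

end Pool.Agent.Helper880_HC
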