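import Pool.Agent.Helper880_HC.Inv
import Pool.Agent.TH125.Nod.Fft2

/-!
# Invariant tensors
-/

set_option autoImplicit false
set_option linter.unusedSectionVars false
set_option linter.unusedVariables false

open Matrix Module

namespace Pool.Agent.Helper880_HC

open Pool.Agent.Helper880_LF (spS mem_spS)
open Pool.Agent.Helper880_R3 (Ix Tot ib)
open Pool.Agent.Helper880_ZP

variable {n N r₀ d₀ d : ℕ}

/-- rational matrices as complex matrices -/
def mC (M : Matrix (Fin n) (Fin n) ℚ) : Matrix (Fin n) (Fin n) ℂ := M.map fun x : ℚ => (x : ℂ)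

theorem mC_mul (M M' : Matrix (Fin n) (Fin n) ℚ) : mC (M * M') = mC M * mC M' :=
  Matrix.map_mul (f := Rat.castHom ℂ)

theorem mC_add (M M' : Matrix (Fin n) (Fin n) ℚ) : mC (M + M') = mC M + mC M' := by
  ext i j
  exact Rat.cast_add _ _

theorem mC_zero : mC (0 : Matrix (Fin n) (Fin n) ℚ) = 0 := by
  ext i j
  exact Rat.cast_zero

theorem mC_sp {J X : Matrix (Fin n) (Fin n) ℚ} (h : Xᵀ * J + J * X = 0) : mC X ∈ spS (mC J) := by
  rw [mem_spS]
  have h1 := congrArg mC h
  rw [mC_add, mC_mul, mC_mul, mC_zero] at h1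
  exact h1

/-- the standard elements of the Lie algebra of a form -/
noncomputable def elt (J : Matrix (Fin n) (Fin n) ℚ) (ε : ℤ) (p q : Fin n) : Matrix (Fin n) (Fin n) ℚ :=
  vecMulVec (fun a => J⁻¹ q a) (Pi.single p 1) - (ε : ℚ) • vecMulVec (fun a => J⁻¹ p a) (Pi.single q 1)

theorem elt_apply (J : Matrix (Fin n) (Fin n) ℚ) (ε : ℤ) (p q a b : Fin n) :
    elt J ε p q a b = J⁻¹ q a * (if b = p then 1 else 0) - ε * (J⁻¹ p a * (if b = q then 1 else 0)) := by
  unfold elt
  rw [Matrix.sub_apply, Matrix.smul_apply, vecMulVec_apply, vecMulVec_apply, Pi.single_apply, Pi.single_apply, smul_eq_mul]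

theorem inv_sym {J : Matrix (Fin n) (Fin n) ℚ} {ε : ℤ} (hε : ε = 1 ∨ ε = -1) (hJ : Jᵀ = (ε : ℚ) • J) (hdet : IsUnit J.det) :
    (J⁻¹)ᵀ = (ε : ℚ) • J⁻¹ := by
  rw [transpose_nonsing_inv, hJ]
  rcases hε with h | h
  · rw [h, Int.cast_one, one_smul, one_smul]
  · rw [h, Int.cast_neg, Int.cast_one, neg_one_smul, neg_one_smul]
    refine Matrix.inv_eq_right_inv ?_
    rw [Matrix.neg_mul, Matrix.mul_neg, neg_neg, mul_nonsing_inv _ hdet]

theorem elt_mem {J : Matrix (Fin n) (Fin n) ℚ} {ε : ℤ} (hε : ε = 1 ∨ ε = -1) (hJ : Jᵀ = (ε : ℚ) • J) (hdet : IsUnit J.det)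
    (p q : Fin n) : (elt J ε p q)ᵀ * J + J * elt J ε p q = 0 := by
  have hs := inv_sym hε hJ hdet
  have hee : (ε : ℚ) * ε = 1 := by
    rcases hε with h | h <;> rw [h] <;> norm_num
  have h1 : ∀ q : Fin n, J *ᵥ (fun a => J⁻¹ q a) = (ε : ℚ) • (Pi.single q 1 : Fin n → ℚ) := by
    intro q
    have h2 : (fun a => J⁻¹ q a) = (ε : ℚ) • (fun a => J⁻¹ a q) := by
      funext a
      have h3 := congrFun (congrFun hs a) q
      rw [Matrix.transpose_apply, Matrix.smul_apply] at h3
      exact h3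
    rw [h2, mulVec_smul]
    congr 1
    funext i
    have h3 := congrFun (congrFun (mul_nonsing_inv J hdet) i) q
    rw [Matrix.mul_apply, Matrix.one_apply] at h3
    rw [Pi.single_apply]
    exact h3
  have h2 : ∀ q : Fin n, (fun a => J⁻¹ q a) ᵥ* J = Pi.single q 1 := by
    intro q
    funext i
    have h3 := congrFun (congrFun (nonsing_inv_mul J hdet) q) i
    rw [Matrix.mul_apply, Matrix.one_apply] at h3
    rw [Pi.single_apply]
    simp only [eq_comm (a := i)]
    exact h3
  unfold elt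
  rw [transpose_sub, transpose_smul, transpose_vecMulVec, transpose_vecMulVec, Matrix.sub_mul, Matrix.mul_sub,
    Matrix.smul_mul, Matrix.mul_smul, vecMulVec_mul, vecMulVec_mul, mul_vecMulVec, mul_vecMulVec, h1, h1, h2, h2,
    smul_vecMulVec, smul_vecMulVec, smul_smul, hee, one_smul]
  abel

/-- the form on all blocks -/
noncomputable def QB (N : ℕ) (J : Matrix (Fin n) (Fin n) ℚ) : Matrix (Fin n × Fin N) (Fin n × Fin N) ℚ :=
  blockDiagonal fun _ => J⁻¹

open Classical in
/-- extension of a tensor by zero -/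
noncomputable def ex (τ : Fin d → Fin N) (g : (Fin d → Fin n) → ℚ) : (Fin d → Fin n × Fin N) → ℚ := fun z =>
  if ∀ l, (z l).2 = τ l then g (fun l => (z l).1) else 0

/-- a product of values of the inverse form -/
noncomputable def mt (J : Matrix (Fin n) (Fin n) ℚ) {m : ℕ} (e : Fin m × Fin 2 ≃ Fin d) : (Fin d → Fin n) → ℚ :=
  fun v => ∏ l, J⁻¹ (v (e (l, 0))) (v (e (l, 1)))

theorem ex_sup (τ : Fin d → Fin N) (g : (Fin d → Fin n) → ℚ) : Pool.Agent.TH125.Nod.Sup Prod.snd τ (ex τ g) := by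
  intro z hz
  exact if_neg hz

theorem one_sum {τ : Fin d → Fin N} {f : Ten ℂ d₀ d r₀ n} (j : Fin N) (X : Matrix (Fin n) (Fin n) ℂ)
    (u : Fin d₀ → Fin r₀) (v : Fin d → Fin n) : one τ f j X u v =
      ∑ l, if τ l = j then ∑ a, X (v l) a * f u (Function.update v l a) else 0 := by
  rw [one_apply', act_apply]
  have h1 : ∑ k, ∑ a, (0 : Matrix (Fin r₀) (Fin r₀) ℂ) (u k) a * f (Function.update u k a) v = 0 :=
    Finset.sum_eq_zero fun k _ => Finset.sum_eq_zero fun a _ => by rw [Matrix.zero_apply, zero_mul]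
  rw [h1, zero_add]
  refine Finset.sum_congr rfl fun l _ => ?_
  split_ifs with h
  · rw [h, Pi.single_eq_same]
  · rw [Pi.single_eq_of_ne h]
    exact Finset.sum_eq_zero fun a _ => by rw [Matrix.zero_apply, zero_mul]

theorem ex_inv {τ : Fin d → Fin N} {f : Ten ℚ d₀ d r₀ n} {J : Matrix (Fin n) (Fin n) ℚ} {ε : ℤ} (hε : ε = 1 ∨ ε = -1)
    (hJ : Jᵀ = (ε : ℚ) • J) (hdet : IsUnit J.det) (h : ∀ j, ∀ X ∈ spS (mC J), one τ (tC f) j X = 0)
    (u : Fin d₀ → Fin r₀) :
    Pool.Agent.TH125.Nod.Inv Prod.snd (QB N J) (fun _ => ((ε : ℤ) : ℚ)) (ex τ (f u)) := by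
  classical
  rintro ⟨p, j⟩ ⟨q, j'⟩ hj z
  obtain rfl : j = j' := hj
  by_cases hz : ∀ l, (z l).2 = τ l
  · set v : Fin d → Fin n := fun l => (z l).1 with hv
    have h1 := congrFun (congrFun (h j _ (mC_sp (elt_mem hε hJ hdet p q))) u) v
    rw [one_sum] at h1
    have h2 : ∀ l, (if τ l = j then ∑ a, mC (elt J ε p q) (v l) a * tC f u (Function.update v l a) else 0) =
        ((QB N J (q, j) (z l) • ex τ (f u) (Function.update z l (p, j)) -
          (((ε : ℤ) : ℚ) * QB N J (p, j) (z l)) • ex τ (f u) (Function.update z l (q, j)) : ℚ) : ℂ) := by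
      intro l
      have hQ : ∀ b : Fin n, QB N J (b, j) (z l) = if τ l = j then J⁻¹ b (v l) else 0 := by
        intro b
        unfold QB
        have h3 : z l = (v l, τ l) := Prod.ext rfl (hz l)
        rw [h3, blockDiagonal_apply]
        by_cases h4 : τ l = j
        · rw [if_pos h4, if_pos h4.symm]
        · rw [if_neg h4, if_neg (Ne.symm h4)]
      rw [hQ, hQ]
      by_cases hl : τ l = j
      · rw [if_pos hl, if_pos hl, if_pos hl]
        have hex : ∀ b : Fin n, ex τ (f u) (Function.update z l (b, j)) = f u (Function.update v l b) := by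
          intro b
          unfold ex
          rw [if_pos]
          · congr 1
            funext l'
            by_cases h5 : l' = l
            · subst h5
              rw [Function.update_self, Function.update_self]
            · rw [Function.update_of_ne h5, Function.update_of_ne h5]
          · intro l'
            by_cases h5 : l' = l
            · subst h5
              rw [Function.update_self]
              exact hl.symm
            · rw [Function.update_of_ne h5]
              exact hz l'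
        rw [hex, hex]
        have h6 : ∑ a, mC (elt J ε p q) (v l) a * tC f u (Function.update v l a) =
            ((∑ a, elt J ε p q (v l) a * f u (Function.update v l a) : ℚ) : ℂ) := by
          rw [Rat.cast_sum]
          exact Finset.sum_congr rfl fun a _ => (Rat.cast_mul _ _).symm
        rw [h6]
        congr 1
        simp only [elt_apply, sub_mul, mul_ite, ite_mul, mul_one, mul_zero, zero_mul, Finset.sum_sub_distrib,
          Finset.sum_ite_eq', Finset.mem_univ, if_true, smul_eq_mul]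
      · rw [if_neg hl, if_neg hl, if_neg hl, zero_smul, mul_zero, zero_smul, sub_zero, Rat.cast_zero]
    rw [Finset.sum_congr rfl fun l _ => h2 l, ← Rat.cast_sum] at h1
    exact Rat.cast_injective (α := ℂ) (h1.trans Rat.cast_zero.symm)
  · refine Finset.sum_eq_zero fun l _ => ?_
    have h1 : ∀ b b' : Fin n, QB N J (b, j) (z l) ≠ 0 → ex τ (f u) (Function.update z l (b', j)) = 0 := by
      intro b b' hb
      unfold ex
      rw [if_neg]
      intro hcon
      apply hz
      intro l'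
      by_cases h5 : l' = l
      · subst h5
        have h6 := hcon l'
        rw [Function.update_self] at h6
        rw [← h6]
        by_contra h7
        apply hb
        unfold QB
        rw [show z l' = ((z l').1, (z l').2) from rfl, blockDiagonal_apply, if_neg]
        exact fun h8 => h7 h8.symm
      · have h6 := hcon l'
        rwa [Function.update_of_ne h5] at h6
    have h2 : ∀ b b' : Fin n, QB N J (b, j) (z l) * ex τ (f u) (Function.update z l (b', j)) = 0 := by
      intro b b'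
      by_cases h3 : QB N J (b, j) (z l) = 0
      · rw [h3, zero_mul]
      · rw [h1 b b' h3, mul_zero]
    rw [smul_eq_mul, smul_eq_mul, h2, mul_assoc, h2, mul_zero, sub_zero]

/-- **invariant tensors are combinations of products of the inverse form** -/
theorem ff {τ : Fin d → Fin N} {f : Ten ℚ d₀ d r₀ n} {J : Matrix (Fin n) (Fin n) ℚ} {ε : ℤ} (hε : ε = 1 ∨ ε = -1)
    (hJ : Jᵀ = (ε : ℚ) • J) (hdet : IsUnit J.det) (h : ∀ j, ∀ X ∈ spS (mC J), one τ (tC f) j X = 0)
    (hcard : ε = 1 → ∀ j, Fintype.card {l // τ l = j} < n) (u : Fin d₀ → Fin r₀) :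
    f u ∈ Submodule.span ℚ {g | ∃ (m : ℕ) (e : Fin m × Fin 2 ≃ Fin d), (∀ l, τ (e (l, 0)) = τ (e (l, 1))) ∧
      g = mt J e} := by
  classical
  have hQb : ∀ a b : Fin n × Fin N, a.2 ≠ b.2 → QB N J a b = 0 := by
    rintro ⟨a, i⟩ ⟨b, j⟩ hij
    unfold QB
    rw [blockDiagonal_apply, if_neg hij]
  have hQs : ∀ a b : Fin n × Fin N, QB N J a b = (((fun _ : Fin N => ε) a.2 : ℤ) : ℚ) * QB N J b a := by
    rintro ⟨a, i⟩ ⟨b, j⟩
    unfold QB
    rw [blockDiagonal_apply, blockDiagonal_apply]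
    by_cases hij : i = j
    · rw [if_pos hij, if_pos hij.symm]
      have h1 := congrFun (congrFun (inv_sym hε hJ hdet) b) a
      rw [Matrix.transpose_apply, Matrix.smul_apply, smul_eq_mul] at h1
      exact h1
    · rw [if_neg hij, if_neg (Ne.symm hij), mul_zero]
  have hQR : QB N J * (blockDiagonal fun _ : Fin N => J) = 1 := by
    unfold QB
    rw [← blockDiagonal_mul]
    have h1 : (fun _ : Fin N => J⁻¹ * J) = fun _ => 1 := by
      funext _
      exact nonsing_inv_mul _ hdet
    rw [h1]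
    exact blockDiagonal_one
  have hblk : ∀ i : Fin N, (Pool.Agent.TH125.Nod.blk (Prod.snd : Fin n × Fin N → Fin N) i).card = n := by
    intro i
    unfold Pool.Agent.TH125.Nod.blk
    have h1 : (Finset.univ.filter fun b : Fin n × Fin N => b.2 = i) = Finset.univ.image fun a : Fin n => (a, i) := by
      ext ⟨a, j⟩
      simp only [Finset.mem_filter, Finset.mem_univ, true_and, Finset.mem_image, Prod.mk.injEq]
      constructor
      · rintro rfl
        exact ⟨a, rfl, rfl⟩
      · rintro ⟨_, _, rfl⟩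
        rfl
    rw [h1, Finset.card_image_of_injective _ (fun a b hab => (Prod.mk.inj hab).1), Finset.card_univ, Fintype.card_fin]
  have key := Pool.Agent.TH125.Nod.fft (κ := (Prod.snd : Fin n × Fin N → Fin N)) (Q := QB N J)
    (R := blockDiagonal fun _ : Fin N => J) (s := fun _ => ε) (fun _ => hε) hQb hQs hQR (M := ℚ) d (Fin d) τ (ex τ (f u))
    (Fintype.card_fin d) (ex_sup τ (f u)) (ex_inv hε hJ hdet h u) (fun i hi => by
      rw [hblk]
      have h1 := hcard hi i
      rw [Fintype.card_subtype] at h1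
      exact h1)
  let res : ((Fin d → Fin n × Fin N) → ℚ) →ₗ[ℚ] ((Fin d → Fin n) → ℚ) :=
    { toFun := fun F v => F fun l => (v l, τ l)
      map_add' := fun _ _ => rfl
      map_smul' := fun _ _ => rfl }
  have hres : res (ex τ (f u)) = f u := by
    funext v
    show ex τ (f u) (fun l => (v l, τ l)) = f u v
    unfold ex
    exact if_pos fun l => rfl
  rw [← hres]
  unfold Pool.Agent.TH125.Nod.Gen at key
  refine Submodule.span_induction (p := fun F _ => res F ∈ Submodule.span ℚ {g | ∃ (m : ℕ)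
    (e : Fin m × Fin 2 ≃ Fin d), (∀ l, τ (e (l, 0)) = τ (e (l, 1))) ∧ g = mt J e}) ?_ ?_ ?_ ?_ key
  · rintro _ ⟨m, e, c, rfl⟩
    by_cases he : ∀ l, τ (e (l, 0)) = τ (e (l, 1))
    · have h1 : res (Pool.Agent.TH125.Nod.gen Prod.snd (QB N J) τ e c) = c • mt J e := by
        funext v
        show Pool.Agent.TH125.Nod.gen Prod.snd (QB N J) τ e c (fun l => (v l, τ l)) = c • mt J e v
        unfold Pool.Agent.TH125.Nod.gen mt
        rw [if_pos (fun _ => rfl), smul_eq_mul, smul_eq_mul, mul_comm]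
        congr 1
        refine Finset.prod_congr rfl fun l _ => ?_
        unfold QB
        rw [blockDiagonal_apply, if_pos (he l)]
      rw [h1]
      exact Submodule.smul_mem _ _ (Submodule.subset_span ⟨m, e, he, rfl⟩)
    · push Not at he
      obtain ⟨l, hl⟩ := he
      have h1 : res (Pool.Agent.TH125.Nod.gen Prod.snd (QB N J) τ e c) = 0 := by
        funext v
        show Pool.Agent.TH125.Nod.gen Prod.snd (QB N J) τ e c (fun l => (v l, τ l)) = 0
        unfold Pool.Agent.TH125.Nod.gen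
        rw [if_pos (fun _ => rfl), Finset.prod_eq_zero (Finset.mem_univ l), zero_smul]
        unfold QB
        rw [blockDiagonal_apply, if_neg hl]
      rw [h1]
      exact Submodule.zero_mem _
  · rw [map_zero]
    exact Submodule.zero_mem _
  · intro F F' _ _ hF hF'
    rw [map_add]
    exact Submodule.add_mem _ hF hF'
  · intro c F _ hF
    rw [map_smul]
    exact Submodule.smul_mem _ _ hF

/-- the constant part of an eigenvector -/
theorem const_part {τ : Fin d → Fin N} {f : Ten ℂ d₀ d r₀ n} {φ₀ : Matrix (Fin r₀) (Fin r₀) ℂ}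
    {φ : Fin N → Matrix (Fin n) (Fin n) ℂ} {w : ℤ} {J : Matrix (Fin n) (Fin n) ℂ} (hp : ∀ j, Pol w J (φ j))
    (h : ∀ j, ∀ X ∈ spS J, one τ f j X = 0) {q : ℂ} (hq : act τ φ₀ φ f = q • f) :
    act τ φ₀ 0 f = (q - (w : ℂ) / 2 * d) • f := by
  have h1 : act τ φ₀ φ f = act τ φ₀ 0 f + act τ 0 φ f := by
    rw [← LinearMap.add_apply, ← act_add, add_zero, zero_add]
  have h2 : ∀ X : Fin N → Matrix (Fin n) (Fin n) ℂ, act τ 0 X f = ∑ j, one τ f j (X j) := by
    intro X
    funext u v
    rw [Finset.sum_apply, Finset.sum_apply, act_apply]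
    simp only [one_sum]
    have h1 : ∑ k, ∑ a, (0 : Matrix (Fin r₀) (Fin r₀) ℂ) (u k) a * f (Function.update u k a) v = 0 :=
      Finset.sum_eq_zero fun k _ => Finset.sum_eq_zero fun a _ => by rw [Matrix.zero_apply, zero_mul]
    rw [h1, zero_add]
    refine Eq.trans ?_ Finset.sum_comm
    refine Finset.sum_congr rfl fun l _ => ?_
    simp only [Finset.sum_ite_eq, Finset.mem_univ, if_true]
  have h3 : act τ 0 φ f = ((w : ℂ) / 2 * d) • f := by
    have h4 : φ = (fun j => Ph w (φ j)) + fun _ => ((w : ℂ) / 2) • (1 : Matrix (Fin n) (Fin n) ℂ) := by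
      funext j
      show φ j = (φ j - ((w : ℂ) / 2) • 1) + ((w : ℂ) / 2) • 1
      rw [sub_add_cancel]
    have h5 : act τ (0 : Matrix (Fin r₀) (Fin r₀) ℂ) (fun _ : Fin N => ((w : ℂ) / 2) • (1 : Matrix (Fin n) (Fin n) ℂ)) f =
        ((w : ℂ) / 2 * d) • f := by
      unfold act
      rw [LinearMap.add_apply, LinearMap.sum_apply, LinearMap.sum_apply]
      simp only [a0_zero, LinearMap.zero_apply, Finset.sum_const_zero, zero_add, a1_smul, a1_one, LinearMap.smul_apply,
        Module.End.one_apply, Finset.sum_const, Finset.card_univ, Fintype.card_fin, ← Nat.cast_smul_eq_nsmul ℂ, smul_smul]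
      rw [mul_comm]
    have h6 : act τ (0 : Matrix (Fin r₀) (Fin r₀) ℂ) (fun j => Ph w (φ j)) f = 0 := by
      have h7 := h2 fun j => Ph w (φ j)
      have h8 : ∑ j, one τ f j (Ph w (φ j)) = 0 := Finset.sum_eq_zero fun j _ => h j _ (hp j).Ph_mem
      exact h7.trans h8
    rw [h4]
    have h7 := act_add (K := ℂ) (d₀ := d₀) (r₀ := r₀) τ 0 0 (fun j => Ph w (φ j))
      (fun _ : Fin N => ((w : ℂ) / 2) • (1 : Matrix (Fin n) (Fin n) ℂ))
    rw [add_zero] at h7
    rw [h7, LinearMap.add_apply, h6, zero_add, h5]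
  rw [hq, h3] at h1
  rw [sub_smul, h1, add_sub_cancel_right]

/-- **Hodge tensors are combinations of products of the inverse form and constant Hodge tensors** -/
theorem hodge_span {τ : Fin d → Fin N} {f : Ten ℚ d₀ d r₀ n} {φ₀ : Matrix (Fin r₀) (Fin r₀) ℂ}
    {φ : Fin N → Matrix (Fin n) (Fin n) ℂ} {w : ℤ} {J : Matrix (Fin n) (Fin n) ℚ} {ε : ℤ} (hε : ε = 1 ∨ ε = -1)
    (hJ : Jᵀ = (ε : ℚ) • J) (hdet : IsUnit J.det) (hp : ∀ j, Pol w (mC J) (φ j))
    (h : ∀ j, ∀ X ∈ spS (mC J), one τ (tC f) j X = 0) (hcard : ε = 1 → ∀ j, Fintype.card {l // τ l = j} < n)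
    {q : ℤ} (hq : act τ φ₀ φ (tC f) = (q : ℂ) • tC f) :
    f ∈ Submodule.span ℚ {F : Ten ℚ d₀ d r₀ n | ∃ (m : ℕ) (e : Fin m × Fin 2 ≃ Fin d) (g : (Fin d₀ → Fin r₀) → ℚ),
      (∀ l, τ (e (l, 0)) = τ (e (l, 1))) ∧
      (∃ c : ℤ, ∀ u, ∑ k, ∑ a, φ₀ (u k) a * (g (Function.update u k a) : ℂ) = c * (g u : ℂ)) ∧
      F = fun u v => g u * mt J e v} := by
  classical
  set m := d / 2 with hm
  have hmd : ∀ {m' : ℕ}, (Fin m' × Fin 2 ≃ Fin d) → m' = m ∧ d = 2 * m := by
    intro m' e
    have h1 := Fintype.card_congr e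
    rw [Fintype.card_prod, Fintype.card_fin, Fintype.card_fin, Fintype.card_fin] at h1
    omega
  let I := {e : Fin m × Fin 2 ≃ Fin d // ∀ l, τ (e (l, 0)) = τ (e (l, 1))}
  let Φ : (I → ℚ) →ₗ[ℚ] ((Fin d → Fin n) → ℚ) := Fintype.linearCombination ℚ fun e : I => mt J e.1
  have hΦ : ∀ x : I → ℚ, Φ x = ∑ e, x e • mt J e.1 := fun x => Fintype.linearCombination_apply ℚ _ _
  have hrange : ∀ u, f u ∈ LinearMap.range Φ := by
    intro u
    have h1 := ff hε hJ hdet h hcard u
    refine (Submodule.span_le.2 ?_) h1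
    rintro _ ⟨m', e, he, rfl⟩
    obtain ⟨rfl, -⟩ := hmd e
    refine ⟨Pi.single ⟨e, he⟩ 1, ?_⟩
    rw [hΦ, Finset.sum_eq_single ⟨e, he⟩]
    · rw [Pi.single_eq_same, one_smul]
    · intro b _ hb
      rw [Pi.single_eq_of_ne hb, zero_smul]
    · intro h'
      exact absurd (Finset.mem_univ _) h'
  obtain ⟨s, hs⟩ := Φ.rangeRestrict.exists_rightInverse_of_surjective (LinearMap.range_rangeRestrict Φ)
  obtain ⟨Ψ, hΨ⟩ := LinearMap.exists_extend s
  have hinv : ∀ F ∈ LinearMap.range Φ, Φ (Ψ F) = F := by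
    intro F hF
    have h1 : Ψ F = s ⟨F, hF⟩ := by
      rw [← hΨ]
      rfl
    rw [h1]
    have h2 := congrArg (fun T => (T ⟨F, hF⟩ : LinearMap.range Φ).1) hs
    exact h2
  set g : I → (Fin d₀ → Fin r₀) → ℚ := fun e u => Ψ (f u) e with hg
  have hf : f = ∑ e : I, (fun u v => g e u * mt J e.1 v : Ten ℚ d₀ d r₀ n) := by
    funext u v
    rw [Finset.sum_apply, Finset.sum_apply]
    have h1 := congrFun (hinv (f u) (hrange u)) v
    rw [hΦ, Finset.sum_apply] at h1
    rw [← h1]
    rfl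
  have hmu : ∀ (e : I) (F : (Fin d → Fin n) → ℚ), Ψ F e = ∑ v, F v * Ψ (fun v' => if v = v' then 1 else 0) e := by
    intro e F
    have h1 := LinearMap.pi_apply_eq_sum_univ Ψ F
    rw [h1, Finset.sum_apply]
    rfl
  have hcp := const_part hp h hq
  rw [hf]
  refine Submodule.sum_mem _ fun e _ => Submodule.subset_span ⟨m, e.1, g e, e.2, ?_, rfl⟩
  obtain ⟨-, hd⟩ := hmd e.1
  refine ⟨q - w * m, fun u => ?_⟩
  have hgC : ∀ u, (g e u : ℂ) = ∑ v, (f u v : ℂ) * ((Ψ (fun v' => if v = v' then 1 else 0) e : ℚ) : ℂ) := by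
    intro u
    show ((Ψ (f u) e : ℚ) : ℂ) = _
    rw [hmu, Rat.cast_sum]
    exact Finset.sum_congr rfl fun v _ => Rat.cast_mul _ _
  have h0 : ∀ v, ∑ k, ∑ a, φ₀ (u k) a * (f (Function.update u k a) v : ℂ) = ((q : ℂ) - (w : ℂ) / 2 * d) * (f u v : ℂ) := by
    intro v
    have h1 := congrFun (congrFun hcp u) v
    rw [act_apply] at h1
    have h2 : ∑ l, ∑ a, (0 : Fin N → Matrix (Fin n) (Fin n) ℂ) (τ l) (v l) a * tC f u (Function.update v l a) = 0 :=
      Finset.sum_eq_zero fun k _ => Finset.sum_eq_zero fun a _ => by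
        rw [Pi.zero_apply, Matrix.zero_apply, zero_mul]
    rw [h2, add_zero] at h1
    exact h1
  have hc : ((q - w * m : ℤ) : ℂ) = (q : ℂ) - (w : ℂ) / 2 * d := by
    rw [hd]
    push_cast
    ring
  rw [hc, hgC]
  simp only [hgC]
  calc ∑ k, ∑ a, φ₀ (u k) a * ∑ v, (f (Function.update u k a) v : ℂ) * ((Ψ (fun v' => if v = v' then 1 else 0) e : ℚ) : ℂ)
      = ∑ v, (∑ k, ∑ a, φ₀ (u k) a * (f (Function.update u k a) v : ℂ)) *
          ((Ψ (fun v' => if v = v' then 1 else 0) e : ℚ) : ℂ) := by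
        simp only [Finset.mul_sum, Finset.sum_mul]
        rw [Finset.sum_comm (s := (Finset.univ : Finset (Fin d → Fin n)))]
        refine Finset.sum_congr rfl fun k _ => ?_
        rw [Finset.sum_comm (s := (Finset.univ : Finset (Fin d → Fin n)))]
        refine Finset.sum_congr rfl fun a _ => Finset.sum_congr rfl fun v _ => ?_
        ring
    _ = _ := by
        simp only [h0]
        rw [Finset.mul_sum]
        exact Finset.sum_congr rfl fun v _ => mul_assoc _ _ _

end Pool.Agent.Helper880_HC
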