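import Pool.Agent.Helper880_ZP.Asm

/-!
# Self-adjoint subalgebras of the orthogonal Lie algebras which contain most elements of negative degree
-/

set_option autoImplicit false
set_option linter.unusedSectionVars false
set_option linter.unusedVariables false

open Matrix Module

namespace Pool.Agent.Helper880_HC

open Pool.Agent.Helper880_LF (spS mem_spS count om om_add_left om_add_right om_smul_left om_smul_right om_zero_left
  om_zero_right om_sub_left orth mem_orth orth_ge smul_mem_iff' om_nondeg)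
open Pool.Agent.Helper880_R3 (Ix Tot ib ib_apply wd so_span)
open Pool.Agent.Helper880_ZP

variable {n : ℕ} {J φ R : Matrix (Fin n) (Fin n) ℂ} {lev : Fin n → ℤ} {w : ℤ}

/-- the sum of the eigenspaces for the eigenvalues at most `w / 2` -/
def Mm (w : ℤ) (φ : Matrix (Fin n) (Fin n) ℂ) : Submodule ℂ (Fin n → ℂ) :=
  Submodule.span ℂ {v | ∃ q : ℤ, 2 * q ≤ w ∧ φ *ᵥ v = (q : ℂ) • v}

/-- products of vectors of negative degree and vectors of degree at most zero -/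
def wq (w : ℤ) (J φ : Matrix (Fin n) (Fin n) ℂ) : Submodule ℂ (Matrix (Fin n) (Fin n) ℂ) :=
  Submodule.span ℂ {X | ∃ a ∈ Lm w φ, ∃ b ∈ Mm w φ, X = wd J a b}

theorem wq_mem {a b : Fin n → ℂ} (ha : a ∈ Lm w φ) (hb : b ∈ Mm w φ) : wd J a b ∈ wq w J φ :=
  Submodule.subset_span ⟨a, ha, b, hb, rfl⟩

theorem wq_mem' {a b : Fin n → ℂ} (ha : a ∈ Mm w φ) (hb : b ∈ Lm w φ) : wd J a b ∈ wq w J φ := by
  rw [wd_swap]
  exact Submodule.neg_mem _ (wq_mem hb ha)

theorem wq_neg (hp : Pol w J φ) (hJ : Jᵀ = J) :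
    wq w J φ ≤ Submodule.span ℂ {X | X ∈ spS J ∧ ∃ c : ℤ, c < 0 ∧ φ * X - X * φ = (c : ℂ) • X} := by
  unfold wq
  rw [Submodule.span_le]
  rintro _ ⟨a, ha, b, hb, rfl⟩
  unfold Lm at ha
  unfold Mm at hb
  induction ha using Submodule.span_induction with
  | mem a ha =>
    induction hb using Submodule.span_induction with
    | mem b hb =>
      obtain ⟨q, hq, ha⟩ := ha
      obtain ⟨q', hq', hb⟩ := hb
      exact Submodule.subset_span ⟨wd_mem' hJ a b, q + q' - w, by omega, hp.comm_wd hJ ha hb⟩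
    | zero =>
      rw [wd_zero_right]
      exact Submodule.zero_mem _
    | add b c _ _ hb hc =>
      rw [wd_add_right]
      exact Submodule.add_mem _ hb hc
    | smul c b _ hb =>
      rw [wd_smul_right]
      exact Submodule.smul_mem _ _ hb
  | zero =>
    rw [wd_zero_left]
    exact Submodule.zero_mem _
  | add a c _ _ ha hc =>
    rw [wd_add_left]
    exact Submodule.add_mem _ ha hc
  | smul c a _ ha =>
    rw [wd_smul_left]
    exact Submodule.smul_mem _ _ ha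

variable {𝔫 : Submodule ℂ (Matrix (Fin n) (Fin n) ℂ)}

theorem pair (hJt : Jᵀ = J) (h𝔫 : 𝔫 ≤ spS J) (hL : ∀ x ∈ 𝔫, ∀ y ∈ 𝔫, x * y - y * x ∈ 𝔫)
    {X : Matrix (Fin n) (Fin n) ℂ} (hX : X ∈ 𝔫) {e f : Fin n → ℂ} (hY : wd J e f ∈ 𝔫) (hef : om J e f = 0) :
    om J f f • wd J (X *ᵥ e) e + om J e e • wd J (X *ᵥ f) f ∈ 𝔫 := by
  have hX' := h𝔫 hX
  have hZ := hL _ hX _ hY
  rw [comm_wd hJt hX'] at hZ
  have hYZ := hL _ hY _ hZ
  have h1 : wd J e f * (wd J (X *ᵥ e) f + wd J e (X *ᵥ f)) - (wd J (X *ᵥ e) f + wd J e (X *ᵥ f)) * wd J e f =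
      (wd J e f * wd J (X *ᵥ e) f - wd J (X *ᵥ e) f * wd J e f) +
        (wd J e f * wd J e (X *ᵥ f) - wd J e (X *ᵥ f) * wd J e f) := by
    rw [Matrix.mul_add, Matrix.add_mul]
    abel
  have hfe : om J f e = 0 := by rw [om_symm hJt, hef]
  rw [h1, comm_wd hJt (wd_mem' hJt e f), comm_wd hJt (wd_mem' hJt e f)] at hYZ
  simp only [wd_mulVec, so_om_self hJt hX', hef, hfe, zero_smul, sub_zero, zero_sub, wd_smul_left, wd_smul_right,
    wd_neg_left, wd_neg_right] at hYZ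
  have h2 : om J f f • wd J (X *ᵥ e) e + om J e e • wd J (X *ᵥ f) f =
      (om J f (X *ᵥ e) • wd J e f + om J f f • wd J (X *ᵥ e) e +
        (-(om J e e • wd J f (X *ᵥ f)) + -(om J e (X *ᵥ f) • wd J e f))) -
        (om J f (X *ᵥ e) - om J e (X *ᵥ f)) • wd J e f := by
    rw [wd_swap f (X *ᵥ f), smul_neg, neg_neg, sub_smul]
    abel
  rw [h2]
  exact 𝔫.sub_mem hYZ (𝔫.smul_mem _ hY)

/-- stability -/
theorem tri_stab (hJt : Jᵀ = J) (h𝔫 : 𝔫 ≤ spS J) (hL : ∀ x ∈ 𝔫, ∀ y ∈ 𝔫, x * y - y * x ∈ 𝔫) {b d e : Fin n → ℂ}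
    (hb : om J b b ≠ 0) (hd : om J d d ≠ 0) (he : om J e e ≠ 0) (hbd : om J b d = 0) (hbe : om J b e = 0)
    (hde : om J d e = 0) (kd : d ∈ Dw J 𝔫 b) (ke : e ∈ Dw J 𝔫 b) :
    ∀ X ∈ 𝔫, ∀ v ∈ Dw J 𝔫 b, X *ᵥ v ∈ Dw J 𝔫 b := by
  intro X hX v hv
  have k1 := pair hJt h𝔫 hL hX (mem_Dw.1 kd) hbd
  have k2 := pair hJt h𝔫 hL hX (mem_Dw.1 ke) hbe
  have k3 := pair hJt h𝔫 hL hX (Dw_sq hJt hL hb kd ke) hde
  have h2 : (2 * om J d d * om J e e) • wd J (X *ᵥ b) b =
      om J e e • (om J d d • wd J (X *ᵥ b) b + om J b b • wd J (X *ᵥ d) d) +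
      om J d d • (om J e e • wd J (X *ᵥ b) b + om J b b • wd J (X *ᵥ e) e) -
      om J b b • (om J e e • wd J (X *ᵥ d) d + om J d d • wd J (X *ᵥ e) e) := by
    module
  have h3 : (2 * om J d d * om J e e) • wd J (X *ᵥ b) b ∈ 𝔫 := by
    rw [h2]
    exact 𝔫.sub_mem (𝔫.add_mem (𝔫.smul_mem _ k1) (𝔫.smul_mem _ k2)) (𝔫.smul_mem _ k3)
  have h4 := smul_mem_iff' (mul_ne_zero (mul_ne_zero two_ne_zero hd) he) h3
  have h5 : X *ᵥ b ∈ Dw J 𝔫 b := by
    rw [mem_Dw, wd_swap]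
    exact 𝔫.neg_mem h4
  have h6 := hL _ hX _ (mem_Dw.1 hv)
  rw [comm_wd hJt (h𝔫 hX)] at h6
  exact (Submodule.add_mem_iff_right 𝔫 (Dw_sq hJt hL hb h5 hv)).1 h6

theorem Lm_eig (he : Eig lev R φ) {v : Fin n → ℂ} (hv : v ∈ Lm w φ) {q : ℤ} (hq : φ *ᵥ v = (q : ℂ) • v) (hv0 : v ≠ 0) :
    2 * q < w := by
  by_contra h
  have h1 : spec lev R (fun c => if 2 * c < w then 0 else 1) *ᵥ v = 0 := by
    unfold Lm at hv
    clear hq hv0
    induction hv using Submodule.span_induction with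
    | mem v hv =>
      obtain ⟨q', hq', hv⟩ := hv
      rw [spec_eig he _ hv, if_pos hq', zero_smul]
    | zero => rw [mulVec_zero]
    | add a b _ _ ha hb => rw [mulVec_add, ha, hb, add_zero]
    | smul c a _ ha => rw [mulVec_smul, ha, smul_zero]
  rw [spec_eig he _ hq, if_neg h, one_smul] at h1
  exact hv0 h1

theorem Lm_stab : ∀ v ∈ Lm w φ, φ *ᵥ v ∈ Lm w φ := by
  intro v hv
  unfold Lm at hv ⊢
  induction hv using Submodule.span_induction with
  | mem v hv =>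
    obtain ⟨q, hq, h⟩ := hv
    rw [h]
    exact Submodule.smul_mem _ _ (Submodule.subset_span ⟨q, hq, h⟩)
  | zero => rw [mulVec_zero]; exact Submodule.zero_mem _
  | add a b _ _ ha hb => rw [mulVec_add]; exact Submodule.add_mem _ ha hb
  | smul c a _ ha => rw [mulVec_smul]; exact Submodule.smul_mem _ _ ha

/-- vectors of small degree in an orthogonal decomposition -/
theorem split_span (hJt : Jᵀ = J) {T T' : Submodule ℂ (Fin n → ℂ)} (hT : ∀ v ∈ T, φ *ᵥ v ∈ T) (hT' : ∀ v ∈ T', φ *ᵥ v ∈ T')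
    (hdis : T ⊓ T' = ⊥) (hsup : T ⊔ T' = ⊤) (P : ℤ → Prop) :
    Submodule.span ℂ {v | ∃ q : ℤ, P q ∧ φ *ᵥ v = (q : ℂ) • v} ≤
      (T ⊓ Submodule.span ℂ {v | ∃ q : ℤ, P q ∧ φ *ᵥ v = (q : ℂ) • v}) ⊔
        (T' ⊓ Submodule.span ℂ {v | ∃ q : ℤ, P q ∧ φ *ᵥ v = (q : ℂ) • v}) := by
  rw [Submodule.span_le]
  rintro v ⟨q, hq, hv⟩
  obtain ⟨t, ht, t', ht', rfl⟩ := Submodule.mem_sup.1 (show v ∈ T ⊔ T' by rw [hsup]; exact Submodule.mem_top)
  rw [mulVec_add, smul_add] at hv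
  have h1 : φ *ᵥ t - (q : ℂ) • t = -(φ *ᵥ t' - (q : ℂ) • t') := by
    have h2 : (φ *ᵥ t - (q : ℂ) • t) + (φ *ᵥ t' - (q : ℂ) • t') = 0 := by
      have h3 := sub_eq_zero.2 hv
      rw [← h3]
      abel
    exact eq_neg_of_add_eq_zero_left h2
  have h2 : φ *ᵥ t - (q : ℂ) • t = 0 := by
    have h3 : φ *ᵥ t - (q : ℂ) • t ∈ T ⊓ T' :=
      ⟨T.sub_mem (hT t ht) (T.smul_mem _ ht), by rw [h1]; exact T'.neg_mem (T'.sub_mem (hT' t' ht') (T'.smul_mem _ ht'))⟩
    rw [hdis] at h3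
    exact (Submodule.mem_bot ℂ).1 h3
  have h3 : φ *ᵥ t' - (q : ℂ) • t' = 0 := by
    rw [h2] at h1
    rw [← neg_eq_zero, ← h1]
  exact Submodule.add_mem_sup ⟨ht, Submodule.subset_span ⟨q, hq, sub_eq_zero.1 h2⟩⟩
    ⟨ht', Submodule.subset_span ⟨q, hq, sub_eq_zero.1 h3⟩⟩

/-- **subalgebras of the orthogonal algebra which contain most elements of negative degree** -/
theorem ort1 (hp : Pol w J φ) (he : Eig lev R φ) (hJ : Jᵀ = J) (h𝔫 : 𝔫 ≤ spS J)
    (hbr : ∀ x ∈ 𝔫, ∀ y ∈ 𝔫, x * y - y * x ∈ 𝔫) (hbar : ∀ y ∈ 𝔫, mbar y ∈ 𝔫) (hφ : ∀ y ∈ 𝔫, φ * y - y * φ ∈ 𝔫) {r : ℕ}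
    (hcod : finrank ℂ (wq w J φ) ≤ finrank ℂ (wq w J φ ⊓ 𝔫 : Submodule ℂ (Matrix (Fin n) (Fin n) ℂ)) + r)
    (hr : r < finrank ℂ (Lm w φ)) {v₀ : Fin n → ℂ} (hv₀ : v₀ ≠ 0) {q₀ : ℤ} (hq₀ : 2 * q₀ = w)
    (hv₀e : φ *ᵥ v₀ = (q₀ : ℂ) • v₀) : ∀ u v, wd J u v ∈ 𝔫 := by
  -- a real vector of degree zero
  obtain ⟨b, hb0, hbs, hbφ⟩ : ∃ b : Fin n → ℂ, b ≠ 0 ∧ star b = b ∧ φ *ᵥ b = (q₀ : ℂ) • b := by
    have h1 := hp.conj_eig hv₀e
    have h2 : (w - q₀ : ℤ) = q₀ := by omega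
    rw [h2] at h1
    by_cases h : v₀ + star v₀ = 0
    · refine ⟨Complex.I • v₀, smul_ne_zero Complex.I_ne_zero hv₀, ?_, ?_⟩
      · have h3 : star v₀ = -v₀ := eq_neg_of_add_eq_zero_right h
        rw [star_smul, h3]
        have h4 : star Complex.I = -Complex.I := Complex.conj_I
        rw [h4, neg_smul_neg]
      · rw [mulVec_smul, hv₀e, smul_comm]
    · refine ⟨v₀ + star v₀, h, ?_, ?_⟩
      · rw [star_add, star_star, add_comm]
      · rw [mulVec_add, hv₀e, h1, smul_add]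
  have hbb : om J b b ≠ 0 := by
    intro h
    have h1 := hp.pos b hb0 q₀ hbφ
    rw [hbs, h, mul_zero, Complex.zero_re] at h1
    exact lt_irrefl _ h1
  have hbM : b ∈ Mm w φ := Submodule.subset_span ⟨q₀, hq₀.le, hbφ⟩
  set T := Dw J 𝔫 b with hTdef
  have hbT : b ∈ T := by rw [hTdef, mem_Dw, wd_self]; exact 𝔫.zero_mem
  have hPb : Ph w φ *ᵥ b = 0 := by
    rw [Ph_mulVec, hbφ, ← sub_smul, ← hq₀]
    push_cast
    rw [mul_div_cancel_left₀ _ (two_ne_zero), sub_self, zero_smul]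
  have hTφ : ∀ v ∈ T, φ *ᵥ v ∈ T := by
    intro v hv
    have h1 := hφ _ (mem_Dw.1 hv)
    rw [← Ph_comm (w := w), comm_wd hJ hp.Ph_mem, hPb, wd_zero_left, zero_add, Ph_mulVec, sub_eq_add_neg, wd_add_right,
      wd_neg_right, wd_smul_right] at h1
    have h2 := 𝔫.add_mem h1 (𝔫.smul_mem ((w : ℂ) / 2) (mem_Dw.1 hv))
    rwa [neg_add_cancel_right] at h2
  have hTs : ∀ v ∈ T, star v ∈ T := by
    intro v hv
    have h1 := hbar _ (mem_Dw.1 hv)
    rwa [← wd_bar hp.real, hbs] at h1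
  -- an eigenvector of negative degree
  obtain ⟨a, q, ha0, haL, haT, haφ⟩ : ∃ (a : Fin n → ℂ) (q : ℤ), a ≠ 0 ∧ a ∈ Lm w φ ∧ a ∈ T ∧ φ *ᵥ a = (q : ℂ) • a := by
    have h1 := count ((fw J b) ∘ₗ (Lm w φ).subtype) (𝔰 := wq w J φ) (𝔫 := wq w J φ ⊓ 𝔫) inf_le_left fun x => wq_mem' hbM x.2
    have h2 : ((wq w J φ ⊓ 𝔫).comap ((fw J b) ∘ₗ (Lm w φ).subtype)) ≠ ⊥ := by
      intro h
      rw [h, finrank_bot] at h1
      omega
    obtain ⟨x, hx, hx0⟩ := (Submodule.ne_bot_iff _).1 h2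
    have h3 : (x : Fin n → ℂ) ∈ Lm w φ ⊓ T := ⟨x.2, hx.2⟩
    have h4 := vec_span he (S := Lm w φ ⊓ T) fun v hv => ⟨Lm_stab v hv.1, hTφ v hv.2⟩
    by_contra hcon
    push Not at hcon
    have h5 : Lm w φ ⊓ T ≤ ⊥ := by
      refine h4.trans ?_
      rw [Submodule.span_le]
      rintro v ⟨hv, q, hq⟩
      by_contra h0
      exact hcon v q h0 hv.1 hv.2 hq
    exact hx0 (Subtype.ext ((Submodule.mem_bot ℂ).1 (h5 h3)))
  have hq := Lm_eig he haL haφ ha0
  have hsa := hp.conj_eig haφ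
  have haa : om J a a = 0 := hp.om_eig haφ haφ (by omega)
  have hss : om J (star a) (star a) = 0 := hp.om_eig hsa hsa (by omega)
  have hba : om J b a = 0 := hp.om_eig hbφ haφ (by omega)
  have hbs' : om J b (star a) = 0 := hp.om_eig hbφ hsa (by omega)
  have has : om J a (star a) ≠ 0 := by
    intro h
    have h1 := hp.pos a ha0 q haφ
    rw [h, mul_zero, Complex.zero_re] at h1
    exact lt_irrefl _ h1
  have hsT := hTs a haT
  have hsa' : om J (star a) a = om J a (star a) := om_symm hJ _ _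
  have hstab : ∀ X ∈ 𝔫, ∀ v ∈ T, X *ᵥ v ∈ T := by
    refine tri_stab hJ h𝔫 hbr (d := a + star a) (e := Complex.I • (a - star a)) hbb ?_ ?_ ?_ ?_ ?_
      (T.add_mem haT hsT) (T.smul_mem _ (T.sub_mem haT hsT))
    · rw [om_add_left, om_add_right, om_add_right, haa, hss, hsa', zero_add, add_zero, ← two_mul]
      exact mul_ne_zero two_ne_zero has
    · rw [om_smul_left, om_smul_right, sub_eq_add_neg, om_add_left, om_add_right, om_add_right, om_neg_left, om_neg_right,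
        om_neg_left, om_neg_right, haa, hss, hsa', zero_add, neg_zero, neg_zero, add_zero, ← mul_assoc, Complex.I_mul_I]
      have h1 : -1 * (-om J a (star a) + -om J a (star a)) = 2 * om J a (star a) := by ring
      rw [h1]
      exact mul_ne_zero two_ne_zero has
    · rw [om_add_right, hba, hbs', add_zero]
    · rw [om_smul_right, sub_eq_add_neg, om_add_right, om_neg_right, hba, hbs', neg_zero, add_zero, mul_zero]
    · rw [om_smul_right, sub_eq_add_neg, om_add_left, om_add_right, om_add_right, om_neg_right, om_neg_right, haa, hss, hsa',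
        zero_add, neg_zero, add_zero, neg_add_cancel, mul_zero]
  have horφ : ∀ v ∈ orth J T, φ *ᵥ v ∈ orth J T := by
    intro v hv s hs
    have h1 := so_om hJ hp.Ph_mem s v
    rw [Ph_mulVec, Ph_mulVec] at h1
    have h2 : om J (φ *ᵥ s - ((w : ℂ) / 2) • s) v = 0 := hv _ (T.sub_mem (hTφ s hs) (T.smul_mem _ hs))
    rw [h2, sub_eq_add_neg, om_add_right, om_neg_right, om_smul_right, hv s hs, mul_zero, neg_zero, add_zero] at h1
    rw [← neg_eq_zero, ← h1]
  have hors : ∀ v ∈ orth J T, star v ∈ orth J T := by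
    intro v hv s hs
    have h5 := om_bar hp.real (star s) v
    rw [star_star, hv _ (hTs s hs), star_zero] at h5
    exact h5
  have hnd : ∀ v ∈ T, v ∈ orth J T → v = 0 := by
    have h1 : T ⊓ orth J T = ⊥ := by
      refine hp.aniso he _ ?_ ?_ ?_
      · rintro v ⟨hv1, hv2⟩
        rw [Ph_mulVec]
        exact ⟨T.sub_mem (hTφ v hv1) (T.smul_mem _ hv1),
          (orth J T).sub_mem (horφ v hv2) ((orth J T).smul_mem _ hv2)⟩
      · rintro v ⟨hv1, hv2⟩
        exact ⟨hTs v hv1, hors v hv2⟩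
      · rintro x hx y hy
        exact hy.2 x hx.1
    intro v hv hv'
    have h2 : v ∈ T ⊓ orth J T := ⟨hv, hv'⟩
    rw [h1] at h2
    exact (Submodule.mem_bot ℂ).1 h2
  have hdis : T ⊓ orth J T = ⊥ := by
    rw [Submodule.eq_bot_iff]
    exact fun x hx => hnd x hx.1 hx.2
  have hsup : T ⊔ orth J T = ⊤ := by
    apply Submodule.eq_top_of_finrank_eq
    have h1 := Submodule.finrank_sup_add_finrank_inf_eq T (orth J T)
    rw [hdis, finrank_bot] at h1
    have h2 := orth_ge (J := J) T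
    have h3 := Submodule.finrank_le (T ⊔ orth J T)
    rw [finrank_fin_fun] at h3 ⊢
    omega
  have hLs := split_span (φ := φ) hJ hTφ horφ hdis hsup fun q => 2 * q < w
  have hMs := split_span (φ := φ) hJ hTφ horφ hdis hsup fun q => 2 * q ≤ w
  have hsym : ∀ {x z : Fin n → ℂ}, x ∈ orth J T → z ∈ T → om J x z = 0 := fun hx hz => by
    rw [om_symm hJ]
    exact hx _ hz
  have hTt : orth J T = ⊥ := by
    by_contra horth
    by_cases hcase : orth J T ⊓ Lm w φ = ⊥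
    · -- all vectors of negative degree are in `T`
      have hLT : Lm w φ ≤ T := by
        intro x hx
        have h1 := hLs hx
        obtain ⟨t, ht, t', ht', rfl⟩ := Submodule.mem_sup.1 h1
        have h2 : t' ∈ orth J T ⊓ Lm w φ := ht'
        rw [hcase] at h2
        rw [(Submodule.mem_bot ℂ).1 h2, add_zero]
        exact ht.1
      obtain ⟨z₀, q₁, hz₀0, hz₀, hz₀φ⟩ : ∃ (z : Fin n → ℂ) (q : ℤ), z ≠ 0 ∧ z ∈ orth J T ∧ φ *ᵥ z = (q : ℂ) • z := by
        by_contra hcon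
        push Not at hcon
        apply horth
        rw [eq_bot_iff]
        refine (vec_span he horφ).trans ?_
        rw [Submodule.span_le]
        rintro v ⟨hv, q, hq⟩
        by_contra h0
        exact hcon v q h0 hv hq
      have hz₀M : z₀ ∈ Mm w φ := by
        refine Submodule.subset_span ⟨q₁, ?_, hz₀φ⟩
        by_contra h
        have h1 := hp.conj_eig hz₀φ
        have h2 : star z₀ ∈ orth J T ⊓ Lm w φ := ⟨hors _ hz₀, Submodule.subset_span ⟨w - q₁, by omega, h1⟩⟩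
        rw [hcase] at h2
        apply hz₀0
        have h3 := (Submodule.mem_bot ℂ).1 h2
        rw [← star_star z₀, h3, star_zero]
      have h1 := count ((fw J z₀) ∘ₗ (Lm w φ).subtype) (𝔰 := wq w J φ) (𝔫 := wq w J φ ⊓ 𝔫) inf_le_left
        fun x => wq_mem' hz₀M x.2
      have h2 : ((wq w J φ ⊓ 𝔫).comap ((fw J z₀) ∘ₗ (Lm w φ).subtype)) = ⊥ := by
        rw [Submodule.eq_bot_iff]
        rintro ⟨x, hx⟩ hxn
        refine Subtype.ext (hnd x (hLT hx) fun z hz => ?_)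
        have h3 := hstab _ hxn.2 z hz
        have h4 : ((fw J z₀) ∘ₗ (Lm w φ).subtype) ⟨x, hx⟩ *ᵥ z = om J x z • z₀ := by
          show wd J z₀ x *ᵥ z = _
          rw [wd_mulVec, hsym hz₀ hz, zero_smul, sub_zero]
        rw [h4] at h3
        have h5 := hnd _ h3 ((orth J T).smul_mem _ hz₀)
        rw [om_symm hJ]
        exact (smul_eq_zero.1 h5).resolve_right hz₀0
      rw [h2, finrank_bot] at h1
      omega
    · obtain ⟨z₀, ⟨hz₀, hz₀L⟩, hz₀0⟩ := (Submodule.ne_bot_iff _).1 hcase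
      have h1 := count (f2w J (T ⊓ Mm w φ) (orth J T ⊓ Mm w φ) a z₀) (𝔰 := wq w J φ) (𝔫 := wq w J φ ⊓ 𝔫) inf_le_left
        fun x => (wq w J φ).add_mem (wq_mem' x.1.2.2 hz₀L) (wq_mem haL x.2.2.2)
      have hLM : Lm w φ ≤ Mm w φ := Submodule.span_mono fun v ⟨q, hq, hv⟩ => ⟨q, hq.le, hv⟩
      have haM : a ∈ T ⊓ Mm w φ := ⟨haT, hLM haL⟩
      have hz₀M : z₀ ∈ orth J T ⊓ Mm w φ := ⟨hz₀, hLM hz₀L⟩
      have h2 : (wq w J φ ⊓ 𝔫).comap (f2w J (T ⊓ Mm w φ) (orth J T ⊓ Mm w φ) a z₀) ≤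
          Submodule.span ℂ {((⟨-a, (T ⊓ Mm w φ).neg_mem haM⟩ : (T ⊓ Mm w φ : Submodule ℂ (Fin n → ℂ))),
            (⟨z₀, hz₀M⟩ : (orth J T ⊓ Mm w φ : Submodule ℂ (Fin n → ℂ))))} := by
        rintro ⟨⟨x, hx⟩, ⟨y, hy⟩⟩ hw
        have hw' : wd J x z₀ + wd J a y ∈ 𝔫 := hw.2
        have h3 : ∀ z ∈ T, om J x z • z₀ + om J a z • y = 0 := by
          intro z hz
          have h4 := hstab _ hw' z hz
          rw [add_mulVec, wd_mulVec, wd_mulVec, hsym hz₀ hz, hsym hy.1 hz, zero_smul, zero_smul,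
            zero_sub, zero_sub, ← neg_add] at h4
          have h5 := T.neg_mem h4
          rw [neg_neg] at h5
          exact hnd _ h5 ((orth J T).add_mem ((orth J T).smul_mem _ hz₀) ((orth J T).smul_mem _ hy.1))
        have h4 := h3 _ hsT
        set lam := -(om J x (star a)) / om J a (star a) with hlam
        have hy' : y = lam • z₀ := by
          have h5 : om J a (star a) • y = -(om J x (star a)) • z₀ := by
            rw [neg_smul]
            exact eq_neg_of_add_eq_zero_right h4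
          rw [hlam, div_eq_inv_mul, mul_smul, ← h5, smul_smul, inv_mul_cancel₀ has, one_smul]
        have hx' : x + lam • a = 0 := by
          refine hnd _ (T.add_mem hx.1 (T.smul_mem _ haT)) fun z hz => ?_
          have h5 := h3 z hz
          rw [hy', smul_smul, ← add_smul] at h5
          have h6 := (smul_eq_zero.1 h5).resolve_right hz₀0
          rw [om_add_right, om_smul_right, om_symm hJ z x, om_symm hJ z a, mul_comm lam]
          exact h6
        refine Submodule.mem_span_singleton.2 ⟨lam, ?_⟩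
        refine Prod.ext (Subtype.ext ?_) (Subtype.ext ?_)
        · show lam • (-a) = x
          rw [smul_neg]
          exact (eq_neg_of_add_eq_zero_left hx').symm
        · exact hy'.symm
      have h3 := Submodule.finrank_mono h2
      have h4 : finrank ℂ (Submodule.span ℂ {((⟨-a, (T ⊓ Mm w φ).neg_mem haM⟩ : (T ⊓ Mm w φ : Submodule ℂ (Fin n → ℂ))),
            (⟨z₀, hz₀M⟩ : (orth J T ⊓ Mm w φ : Submodule ℂ (Fin n → ℂ))))}) ≤ 1 :=
        (finrank_span_le_card _).trans (by simp)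
      have h5 := Submodule.finrank_mono hMs
      have h6 := Submodule.finrank_add_le_finrank_add_finrank (T ⊓ Mm w φ) (orth J T ⊓ Mm w φ)
      have h7 : finrank ℂ (Lm w φ) < finrank ℂ (Mm w φ) := by
        refine Submodule.finrank_lt_finrank_of_lt (lt_of_le_of_ne hLM fun h => ?_)
        have h8 : b ∈ Lm w φ := by rw [h]; exact hbM
        have h9 := Lm_eig he h8 hbφ hb0
        omega
      rw [finrank_prod] at h1
      have h8 : finrank ℂ (Mm w φ) ≤ finrank ℂ (T ⊓ Mm w φ : Submodule ℂ (Fin n → ℂ)) +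
          finrank ℂ (orth J T ⊓ Mm w φ : Submodule ℂ (Fin n → ℂ)) := h5.trans h6
      omega
  have hTtop : T = ⊤ := by rw [hTt, sup_bot_eq] at hsup; exact hsup
  intro u v
  have hu : u ∈ T := by rw [hTtop]; exact Submodule.mem_top
  have hv : v ∈ T := by rw [hTtop]; exact Submodule.mem_top
  exact Dw_sq hJ hbr hbb hu hv

end Pool.Agent.Helper880_HC
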