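import Pool.Agent.Helper880_HC.Act
import Pool.Agent.Helper880_HC.Orn

/-!
# Hodge tensors are invariant under the symplectic and orthogonal Lie algebras
-/

set_option autoImplicit false
set_option linter.unusedSectionVars false
set_option linter.unusedVariables false

open Matrix Module

namespace Pool.Agent.Helper880_HC

open Pool.Agent.Helper880_LF (spS mem_spS count om om_add_left om_add_right om_smul_left om_smul_right om_zero_left
  om_zero_right om_sub_left orth mem_orth orth_ge smul_mem_iff' om_nondeg pr pr_mem comm_pr pr_mulVec mem_of_pr pr_of_sq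
  pr_smul_left pr_smul_right om_self om_swap)
open Pool.Agent.Helper880_R3 (Ix Tot Tot_inj ib ib_apply wd so_span)
open Pool.Agent.Helper880_ZP

variable {n N r₀ d₀ d : ℕ}

section concl
variable {φ₀ : Matrix (Fin r₀) (Fin r₀) ℂ} {φ : Fin N → Matrix (Fin n) (Fin n) ℂ}
  {𝔥 𝔊 : Submodule ℂ (Matrix (Ix r₀ n N) (Ix r₀ n N) ℂ)} {r : ℕ} {w : ℤ} {J : Matrix (Fin n) (Fin n) ℂ} {j : Fin N}
  {R : Matrix (Fin n) (Fin n) ℂ} {Q : Matrix (Ix r₀ n N) (Ix r₀ n N) ℂ} {Lev : Ix r₀ n N → ℤ} {lev : Fin n → ℤ}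

/-- **orthogonal case, first theorem** -/
theorem concl_so1 (hE : Eig Lev Q (Tot φ₀ φ)) (h𝔥 : Lie' 𝔥) (hφ : Tot φ₀ φ ∈ 𝔥) (hbar : ∀ X ∈ 𝔥, mbar X ∈ 𝔥)
    (hp : Pol w J (φ j)) (he : Eig lev R (φ j)) (hJ : Jᵀ = J) (hdet : IsUnit J.det) (hm : ∀ X ∈ spS J, ib j X ∈ 𝔊)
    (hcod : finrank ℂ 𝔊 ≤ finrank ℂ (𝔊 ⊓ (𝔥 ⊔ cjS Q (ppS ℂ Lev)) : Submodule ℂ (Matrix (Ix r₀ n N) (Ix r₀ n N) ℂ)) + r)
    (hr : r < finrank ℂ (Lm w (φ j))) {v₀ : Fin n → ℂ} (hv₀ : v₀ ≠ 0) {q₀ : ℤ} (hq₀ : 2 * q₀ = w)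
    (hv₀e : φ j *ᵥ v₀ = (q₀ : ℂ) • v₀) : ∀ X ∈ spS J, ib j X ∈ 𝔥 := by
  set 𝔫 : Submodule ℂ (Matrix (Fin n) (Fin n) ℂ) := spS J ⊓ 𝔥.comap (ib j) with h𝔫
  have h1 : wq w J (φ j) ≤ spS J := by
    refine (wq_neg hp hJ).trans ?_
    rw [Submodule.span_le]
    exact fun X hX => hX.1
  have h2 : ∀ u v, wd J u v ∈ 𝔫 := by
    refine ort1 hp he hJ inf_le_left ?_ ?_ ?_ ?_ hr hv₀ hq₀ hv₀e
    · intro x hx y hy
      refine ⟨sp_lie' hx.1 hy.1, ?_⟩
      show ib j (x * y - y * x) ∈ 𝔥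
      rw [ib_br]
      exact h𝔥 _ hx.2 _ hy.2
    · intro y hy
      refine ⟨spS_bar hp.real hy.1, ?_⟩
      show ib j (mbar y) ∈ 𝔥
      rw [← mbar_ib]
      exact hbar _ hy.2
    · intro y hy
      refine ⟨hp.ad_mem hy.1, ?_⟩
      show ib j (φ j * y - y * φ j) ∈ 𝔥
      rw [← ad_ib (φ₀ := φ₀)]
      exact h𝔥 _ hφ _ hy.2
    · refine (cod_sub (ib j) (V' := wq w J (φ j)) (fun X hX => hm X (h1 hX)) hcod).trans
        (Nat.add_le_add_right (Submodule.finrank_mono ?_) r)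
      rintro X ⟨hX1, hX2⟩
      refine ⟨hX1, h1 hX1, ?_⟩
      refine neg_part hE (fun Y hY => h𝔥 _ hφ _ hY) ?_ hX2
      have h3 := wq_neg hp hJ hX1
      clear hX1 hX2
      induction h3 using Submodule.span_induction with
      | mem X hX =>
        obtain ⟨-, c, hc, hX⟩ := hX
        refine Submodule.subset_span ⟨c, hc, ?_⟩
        rw [ad_ib, hX, map_smul]
      | zero => rw [map_zero]; exact Submodule.zero_mem _
      | add X Y _ _ hX hY => rw [map_add]; exact Submodule.add_mem _ hX hY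
      | smul c X _ hX => rw [map_smul]; exact Submodule.smul_mem _ _ hX
  have hinv : (J⁻¹)⁻¹ = J := nonsing_inv_nonsing_inv J hdet
  have hdet' : IsUnit (J⁻¹).det := by
    rw [← Matrix.isUnit_iff_isUnit_det, Matrix.isUnit_nonsing_inv_iff]
    exact (Matrix.isUnit_iff_isUnit_det _).2 hdet
  have hJ' : (J⁻¹)ᵀ = J⁻¹ := by rw [transpose_nonsing_inv, hJ]
  exact fun X hX => (so_span hdet' hJ' (fun u v => by rw [hinv]; exact h2 u v) (spS_lieB hdet hX) : X ∈ 𝔫).2

/-- columns are eigenvectors -/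
theorem col_eig {ψ : Matrix (Fin n) (Fin n) ℂ} (he : Eig lev R ψ) (b : Fin n) :
    ψ *ᵥ (R *ᵥ Pi.single b 1) = (lev b : ℂ) • (R *ᵥ Pi.single b 1) := by
  rw [mulVec_mulVec, he.eig, ← mulVec_mulVec]
  have h1 : Dg ℂ lev *ᵥ Pi.single b 1 = (lev b : ℂ) • (Pi.single b 1 : Fin n → ℂ) := by
    funext i
    unfold Dg
    rw [mulVec_diagonal, Pi.smul_apply, smul_eq_mul, Pi.single_apply]
    by_cases h : i = b
    · rw [h]
    · rw [if_neg h, mul_zero, mul_zero]
  rw [h1, mulVec_smul]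

theorem col_ne {ψ : Matrix (Fin n) (Fin n) ℂ} (he : Eig lev R ψ) (b : Fin n) : R *ᵥ (Pi.single b 1 : Fin n → ℂ) ≠ 0 := by
  intro h
  have h1 : R⁻¹ *ᵥ (R *ᵥ (Pi.single b 1 : Fin n → ℂ)) = 0 := by rw [h, mulVec_zero]
  rw [mulVec_mulVec, nonsing_inv_mul _ he.unit, one_mulVec] at h1
  have h2 := congrFun h1 b
  rw [Pi.single_eq_same] at h2
  exact one_ne_zero h2

/-- the dimension of the part of negative degree -/
theorem Lm_dim {ψ : Matrix (Fin n) (Fin n) ℂ} (he : Eig lev R ψ) :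
    Fintype.card {b // 2 * lev b < w} ≤ finrank ℂ (Lm w ψ) := by
  have h1 : LinearIndependent ℂ (fun b : Fin n => R *ᵥ (Pi.single b 1 : Fin n → ℂ)) := by
    have h2 := Matrix.linearIndependent_cols_of_isUnit ((Matrix.isUnit_iff_isUnit_det _).2 he.unit)
    have h3 : (fun b : Fin n => R *ᵥ (Pi.single b 1 : Fin n → ℂ)) = R.col := by
      funext b
      exact mulVec_single_col R b
    rw [h3]
    exact h2
  have h2 := h1.comp (fun b : {b // 2 * lev b < w} => b.1) Subtype.val_injective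
  have h3 := finrank_span_eq_card h2
  rw [← h3]
  refine Submodule.finrank_mono ?_
  rw [Submodule.span_le]
  rintro _ ⟨b, rfl⟩
  exact Submodule.subset_span ⟨lev b.1, b.2, col_eig he b.1⟩

end concl

section kill
variable {τ : Fin d → Fin N} {f : Ten ℂ d₀ d r₀ n} {j : Fin N} {J : Matrix (Fin n) (Fin n) ℂ}

/-- the action of one block -/
noncomputable def one (τ : Fin d → Fin N) (f : Ten ℂ d₀ d r₀ n) (j : Fin N) :
    Matrix (Fin n) (Fin n) ℂ →ₗ[ℂ] Ten ℂ d₀ d r₀ n where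
  toFun X := act τ 0 (Pi.single j X) f
  map_add' X Y := by
    rw [Pi.single_add, ← LinearMap.add_apply, ← act_add, add_zero]
  map_smul' c X := by
    rw [Pi.single_smul, RingHom.id_apply, ← LinearMap.smul_apply, ← act_smul, smul_zero]

theorem one_apply' (X : Matrix (Fin n) (Fin n) ℂ) : one τ f j X = act τ 0 (Pi.single j X) f := rfl

theorem hf_one {X : Matrix (Fin n) (Fin n) ℂ} (h : ib j X ∈ hf τ f) : ∃ c : ℂ, one τ f j X = c • f := by
  obtain ⟨x, X', c, he, hc⟩ := h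
  have h1 : Tot 0 (Pi.single j X) = Tot x X' := he
  obtain ⟨h2, h3⟩ := Tot_inj h1
  rw [← h2, ← h3] at hc
  exact ⟨c, hc⟩

theorem one_br {X Y : Matrix (Fin n) (Fin n) ℂ} (hX : ib j X ∈ hf τ f) (hY : ib j Y ∈ hf τ f) :
    one τ f j (X * Y - Y * X) = 0 := by
  obtain ⟨c, hc⟩ := hf_one hX
  obtain ⟨c', hc'⟩ := hf_one hY
  have h1 := act_br (K := ℂ) (d₀ := d₀) (r₀ := r₀) τ 0 0 (Pi.single j X) (Pi.single j Y)
  have h2 : (fun i => (Pi.single j X : Fin N → Matrix (Fin n) (Fin n) ℂ) i * (Pi.single j Y : Fin N → _) i -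
      (Pi.single j Y : Fin N → _) i * (Pi.single j X : Fin N → _) i) = Pi.single j (X * Y - Y * X) := by
    funext i
    by_cases h : i = j
    · subst h
      rw [Pi.single_eq_same, Pi.single_eq_same, Pi.single_eq_same]
    · rw [Pi.single_eq_of_ne h, Pi.single_eq_of_ne h, Pi.single_eq_of_ne h, Matrix.mul_zero, sub_zero]
  rw [h2, Matrix.mul_zero, sub_zero] at h1
  have h3 := congrArg (fun T : Module.End ℂ (Ten ℂ d₀ d r₀ n) => T f) h1
  simp only [LinearMap.sub_apply, Module.End.mul_apply] at h3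
  rw [one_apply'] at hc hc'
  rw [hc, hc', map_smul, map_smul, hc, hc', smul_smul, smul_smul, mul_comm, sub_self] at h3
  exact h3.symm

/-- symplectic case -/
theorem kill_sp (hJ : Jᵀ = -J) (hdet : IsUnit J.det) (h : ∀ X ∈ spS J, ib j X ∈ hf τ f) :
    ∀ X ∈ spS J, one τ f j X = 0 := by
  have hsq : ∀ a, pr J a a ∈ LinearMap.ker (one τ f j) := by
    intro a
    by_cases ha : a = 0
    · rw [ha, Pool.Agent.Helper880_LF.pr_zero_left]
      exact Submodule.zero_mem _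
    obtain ⟨b, hb⟩ : ∃ b, om J b a ≠ 0 := by
      by_contra hcon
      push Not at hcon
      exact ha (om_nondeg hdet hcon)
    have h1 := one_br (h _ (pr_mem hJ a b)) (h _ (pr_mem hJ a a))
    rw [comm_pr hJ (pr_mem hJ a b), pr_mulVec, om_self hJ, zero_smul, add_zero, pr_smul_left, pr_smul_right, ← add_smul] at h1
    have h2 : pr J a a ∈ LinearMap.ker (one τ f j) :=
      smul_mem_iff' (c := om J b a + om J b a) (by rw [← two_mul]; exact mul_ne_zero two_ne_zero hb) h1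
    exact h2
  intro X hX
  exact mem_of_pr hJ hdet (𝔞 := LinearMap.ker (one τ f j)) (fun u v => pr_of_sq (hsq u) (hsq v) (hsq (u + v))) hX

/-- orthogonal case -/
theorem kill_so (hJ : Jᵀ = J) (hdet : IsUnit J.det) (h : ∀ X ∈ spS J, ib j X ∈ hf τ f) {b d' e : Fin n → ℂ}
    (hb : om J b b ≠ 0) (hd : om J d' d' ≠ 0) (he : om J e e ≠ 0) (hbd : om J b d' = 0) (hbe : om J b e = 0)
    (hde : om J d' e = 0) : ∀ X ∈ spS J, one τ f j X = 0 := by
  set 𝔞 := LinearMap.ker (one τ f j) with h𝔞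
  have H : ∀ c x y : Fin n → ℂ, om J c c ≠ 0 → om J c x = 0 → om J c y = 0 → wd J x y ∈ 𝔞 := by
    intro c x y hc hx hy
    have h1 := one_br (h _ (wd_mem' hJ c x)) (h _ (wd_mem' hJ c y))
    have hxc : om J x c = 0 := by rw [om_symm hJ]; exact hx
    rw [comm_wd hJ (wd_mem' hJ c x), wd_mulVec, wd_mulVec, hxc, hy, zero_smul, zero_smul, zero_sub, sub_zero, wd_neg_left,
      wd_smul_left, wd_smul_right, wd_self, smul_zero, add_zero] at h1
    have h2 : -(om J c c • wd J x y) ∈ 𝔞 := h1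
    exact smul_mem_iff' hc ((Submodule.neg_mem_iff _).1 h2)
  have hB : ∀ z, om J b z = 0 → wd J b z ∈ 𝔞 := by
    intro z hz
    have h1 : z = (om J d' z / om J d' d') • d' + (z - (om J d' z / om J d' d') • d') := by abel
    rw [h1, wd_add_right, wd_smul_right]
    refine 𝔞.add_mem (𝔞.smul_mem _ (H e b d' he ?_ ?_)) (H d' b _ hd ?_ ?_)
    · rw [om_symm hJ]; exact hbe
    · rw [om_symm hJ]; exact hde
    · rw [om_symm hJ]; exact hbd
    · rw [sub_eq_add_neg, om_add_right, om_neg_right, om_smul_right, div_mul_cancel₀ _ hd, add_neg_cancel]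
  have hall : ∀ x y, wd J x y ∈ 𝔞 := by
    intro x y
    have hdec : ∀ z : Fin n → ℂ, z = (om J b z / om J b b) • b + (z - (om J b z / om J b b) • b) := fun z => by abel
    have hperp : ∀ z : Fin n → ℂ, om J b (z - (om J b z / om J b b) • b) = 0 := fun z => by
      rw [sub_eq_add_neg, om_add_right, om_neg_right, om_smul_right, div_mul_cancel₀ _ hb, add_neg_cancel]
    rw [hdec x, hdec y, wd_add_left, wd_add_right, wd_add_right, wd_smul_left, wd_smul_left, wd_smul_right, wd_smul_right,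
      wd_self, smul_zero, smul_zero, zero_add]
    refine 𝔞.add_mem (𝔞.smul_mem _ (hB _ (hperp y))) (𝔞.add_mem (𝔞.smul_mem _ ?_) (H b _ _ hb (hperp x) (hperp y)))
    rw [wd_swap]
    exact 𝔞.neg_mem (hB _ (hperp x))
  have hinv : (J⁻¹)⁻¹ = J := nonsing_inv_nonsing_inv J hdet
  have hdet' : IsUnit (J⁻¹).det := by
    rw [← Matrix.isUnit_iff_isUnit_det, Matrix.isUnit_nonsing_inv_iff]
    exact (Matrix.isUnit_iff_isUnit_det _).2 hdet
  have hJ' : (J⁻¹)ᵀ = J⁻¹ := by rw [transpose_nonsing_inv, hJ]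
  intro X hX
  exact so_span hdet' hJ' (𝔫 := 𝔞) (fun u v => by rw [hinv]; exact hall u v) (spS_lieB hdet hX)

/-- three orthogonal vectors -/
theorem triple {w : ℤ} {ψ : Matrix (Fin n) (Fin n) ℂ} (hp : Pol w J ψ) (hJ : Jᵀ = J) {v₀ a : Fin n → ℂ} (hv₀ : v₀ ≠ 0)
    {q₀ q : ℤ} (hq₀ : 2 * q₀ = w) (hv₀e : ψ *ᵥ v₀ = (q₀ : ℂ) • v₀) (ha0 : a ≠ 0) (hq : 2 * q < w)
    (haφ : ψ *ᵥ a = (q : ℂ) • a) : ∃ b d' e : Fin n → ℂ, om J b b ≠ 0 ∧ om J d' d' ≠ 0 ∧ om J e e ≠ 0 ∧ om J b d' = 0 ∧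
      om J b e = 0 ∧ om J d' e = 0 := by
  obtain ⟨b, hb0, hbs, hbφ⟩ : ∃ b : Fin n → ℂ, b ≠ 0 ∧ star b = b ∧ ψ *ᵥ b = (q₀ : ℂ) • b := by
    have h1 := hp.conj_eig hv₀e
    have h2 : (w - q₀ : ℤ) = q₀ := by omega
    rw [h2] at h1
    by_cases h : v₀ + star v₀ = 0
    · refine ⟨Complex.I • v₀, smul_ne_zero Complex.I_ne_zero hv₀, ?_, ?_⟩
      · have h3 : star v₀ = -v₀ := eq_neg_of_add_eq_zero_right h
        rw [star_smul, h3]
        have h4 : star Complex.I = -Complex.I := Complex.conj_I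
        rw [h4, neg_smul_neg]
      · rw [mulVec_smul, hv₀e, smul_comm]
    · refine ⟨v₀ + star v₀, h, ?_, ?_⟩
      · rw [star_add, star_star, add_comm]
      · rw [mulVec_add, hv₀e, h1, smul_add]
  have hbb : om J b b ≠ 0 := by
    intro h
    have h1 := hp.pos b hb0 q₀ hbφ
    rw [hbs, h, mul_zero, Complex.zero_re] at h1
    exact lt_irrefl _ h1
  have hsa := hp.conj_eig haφ
  have haa : om J a a = 0 := hp.om_eig haφ haφ (by omega)
  have hss : om J (star a) (star a) = 0 := hp.om_eig hsa hsa (by omega)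
  have hba : om J b a = 0 := hp.om_eig hbφ haφ (by omega)
  have hbs' : om J b (star a) = 0 := hp.om_eig hbφ hsa (by omega)
  have has : om J a (star a) ≠ 0 := by
    intro h
    have h1 := hp.pos a ha0 q haφ
    rw [h, mul_zero, Complex.zero_re] at h1
    exact lt_irrefl _ h1
  have hsa' : om J (star a) a = om J a (star a) := om_symm hJ _ _
  refine ⟨b, a + star a, Complex.I • (a - star a), hbb, ?_, ?_, ?_, ?_, ?_⟩
  · rw [om_add_left, om_add_right, om_add_right, haa, hss, hsa', zero_add, add_zero, ← two_mul]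
    exact mul_ne_zero two_ne_zero has
  · rw [om_smul_left, om_smul_right, sub_eq_add_neg, om_add_left, om_add_right, om_add_right, om_neg_left, om_neg_right,
      om_neg_left, om_neg_right, haa, hss, hsa', zero_add, neg_zero, neg_zero, add_zero, ← mul_assoc, Complex.I_mul_I]
    have h1 : -1 * (-om J a (star a) + -om J a (star a)) = 2 * om J a (star a) := by ring
    rw [h1]
    exact mul_ne_zero two_ne_zero has
  · rw [om_add_right, hba, hbs', add_zero]
  · rw [om_smul_right, sub_eq_add_neg, om_add_right, om_neg_right, hba, hbs', neg_zero, add_zero, mul_zero]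
  · rw [om_smul_right, sub_eq_add_neg, om_add_left, om_add_right, om_add_right, om_neg_right, om_neg_right, haa, hss, hsa',
      zero_add, neg_zero, add_zero, neg_add_cancel, mul_zero]

end kill

end Pool.Agent.Helper880_HC
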